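import Pool.Agent.K1H15.OG.Irr

/-!
# Self-dual representations of rank three and four, with irreducibility
-/

set_option autoImplicit false

open Matrix Filter Topology Module

namespace Pool.Agent.K1H15.OG

open Pool.Agent.K1H13.GO Pool.Agent.K1H12.RP

variable {E : Type} [NormedField E] [IsAlgClosed E] [CharZero E] {V : Type} [AddCommGroup V]
  [Module E V] [FiniteDimensional E V] {P : Type} [Group P]
  [TopologicalSpace P] [IsTopologicalGroup P] [CompactSpace P] [TotallyDisconnectedSpace P]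

omit [IsAlgClosed E] [FiniteDimensional E V] [TopologicalSpace P] [IsTopologicalGroup P]
  [CompactSpace P] [TotallyDisconnectedSpace P] in
theorem power_ne {ρ : Representation E P V} {x : P} (hx : OneBlockOfSizeThree (ρ x)) {m : ℕ}
    (hm0 : 0 < m) : (ρ (x ^ m) - 1) ^ 3 = 0 ∧ (ρ (x ^ m) - 1) ^ 2 ≠ 0 := by
  obtain ⟨k1, k2⟩ := pow_unip_sq (u := ρ x) hx.1 m
  rw [map_pow]
  refine ⟨k2, fun h0 => ?_⟩
  rw [k1] at h0
  have h5 : ((m : E) ^ 2) ≠ 0 := pow_ne_zero _ (Nat.cast_ne_zero.2 hm0.ne')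
  have h6 := (smul_eq_zero.1 h0).resolve_left h5
  have h7 := hx.2
  rw [h6, LinearMap.range_zero, finrank_bot] at h7
  exact zero_ne_one h7

/-- **Rank three.** -/
theorem rank_three_all (hd : finrank E V = 3) (ρ : Representation E P V)
    (hρ : IsContinuousRep ρ) (hdet : FiniteDeterminant ρ) (hirr : ρ.IsIrreducible)
    (hself : SelfDualUpToCharacter ρ) :
    ∃ (H : Subgroup P) (σ : H →* SL E) (T : V →ₗ[E] Mt E),
      IsOpen (H : Set P) ∧ Continuous σ ∧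
      Function.Injective T ∧ (∀ X : Mt E, X.trace = 0 ↔ ∃ v, T v = X) ∧
      (∀ (y : H) (v : V), T (ρ y v) = (σ y : Mt E) * T v * ((σ y)⁻¹ : SL E)) ∧
      ∀ x : P, OneBlockOfSizeThree (ρ x) → IrreducibleOnOpenSubgroups σ ∧
        ∀ (m : ℕ) (hm : x ^ m ∈ H), 0 < m → σ ⟨x ^ m, hm⟩ ≠ 1 := by
  obtain ⟨H, σ, T, a1, a2, a3, a4, a5⟩ := rank_three_irr hd ρ hρ hdet hirr hself
  refine ⟨H, σ, T, a1, a2, a3, a4, a5, fun x hx => ⟨?_, fun m hm hm0 h0 => ?_⟩⟩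
  · exact irr_three (simp_of_irr hirr).1 hx a1 a3 a4 a5
  · refine (power_ne hx hm0).2 ?_
    have h1 : ρ (x ^ m) = 1 := by
      ext1 v
      apply a3
      have := a5 ⟨x ^ m, hm⟩ v
      rw [h0, inv_one, Matrix.SpecialLinearGroup.coe_one, Matrix.one_mul, Matrix.mul_one] at this
      exact this
    rw [h1, sub_self]
    exact zero_pow (by norm_num)

/-- **Rank four.** -/
theorem rank_four_all (hd : finrank E V = 4) (ρ : Representation E P V)
    (hρ : IsContinuousRep ρ) (hdet : FiniteDeterminant ρ) (hirr : ρ.IsIrreducible)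
    (hself : SelfDualUpToCharacter ρ) {x : P} (hx : OneBlockOfSizeThree (ρ x)) :
    ∃ (H : Subgroup P) (σ₁ σ₂ : H →* SL E) (T : V ≃ₗ[E] Mt E),
      IsOpen (H : Set P) ∧ Continuous σ₁ ∧ Continuous σ₂ ∧
      (∀ (y : H) (v : V), T (ρ y v) = (σ₁ y : Mt E) * T v * ((σ₂ y)⁻¹ : SL E)) ∧
      IrreducibleOnOpenSubgroups σ₁ ∧ IrreducibleOnOpenSubgroups σ₂ ∧
      ∀ (m : ℕ) (hm : x ^ m ∈ H), 0 < m → σ₁ ⟨x ^ m, hm⟩ ≠ 1 ∧ σ₂ ⟨x ^ m, hm⟩ ≠ 1 := by
  obtain ⟨H, σ₁, σ₂, T, a1, a2, a3, a4, a5⟩ := rank_four_irr hd ρ hρ hdet hirr hself hx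
  obtain ⟨b1, b2⟩ := irr_four (simp_of_irr hirr).1 hx a1 a4
  exact ⟨H, σ₁, σ₂, T, a1, a2, a3, a4, b1, b2, a5⟩

end Pool.Agent.K1H15.OG
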