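import Mathlib

/-!
# Isometries of the determinant form of 2 x 2 matrices: the averaged intertwining operators
-/

set_option autoImplicit false

open Matrix

namespace Pool.Agent.K1H15.OG

variable {E : Type} [Field E]

/-- The matrices. -/
abbrev Mt (E : Type) : Type := Matrix (Fin 2) (Fin 2) E

/-- The relations of quaternion units for the matrices `s i` and `t i` (their adjugates). -/
structure Rel (s t : Fin 4 → Mt E) : Prop where
  st : ∀ i, s i * t i = 1
  ts : ∀ i, t i * s i = 1
  anti : ∀ i j, i ≠ j → s i * t j = - (s j * t i)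
  anti' : ∀ i j, i ≠ j → t i * s j = - (t j * s i)

/-- One step of the averaging. -/
def step (s t q r : Fin 4 → Mt E) (k : Fin 4) (C : Mt E × Mt E) : Mt E × Mt E :=
  ((2⁻¹ : E) • (C.1 + s k * C.2 * r k), (2⁻¹ : E) • (C.2 + t k * C.1 * q k))

/-- The pair is invariant under the index `j`. -/
def Good (s t q r : Fin 4 → Mt E) (j : Fin 4) (C : Mt E × Mt E) : Prop :=
  s j * C.2 * r j = C.1 ∧ t j * C.1 * q j = C.2

theorem step_self {s t q r : Fin 4 → Mt E} (h : Rel s t) (h' : Rel q r) (k : Fin 4)
    (C : Mt E × Mt E) : Good s t q r k (step s t q r k C) := by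
  constructor
  · change s k * ((2⁻¹ : E) • (C.2 + t k * C.1 * q k)) * r k = (2⁻¹ : E) • (C.1 + s k * C.2 * r k)
    have h1 : s k * (t k * C.1 * q k) * r k = C.1 := by
      have : s k * (t k * C.1 * q k) * r k = (s k * t k) * C.1 * (q k * r k) := by
        simp only [Matrix.mul_assoc]
      rw [this, h.st, h'.st, Matrix.one_mul, Matrix.mul_one]
    rw [Matrix.mul_smul, Matrix.smul_mul, Matrix.mul_add, Matrix.add_mul, h1, add_comm]
  · change t k * ((2⁻¹ : E) • (C.1 + s k * C.2 * r k)) * q k = (2⁻¹ : E) • (C.2 + t k * C.1 * q k)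
    have h1 : t k * (s k * C.2 * r k) * q k = C.2 := by
      have : t k * (s k * C.2 * r k) * q k = (t k * s k) * C.2 * (r k * q k) := by
        simp only [Matrix.mul_assoc]
      rw [this, h.ts, h'.ts, Matrix.one_mul, Matrix.mul_one]
    rw [Matrix.mul_smul, Matrix.smul_mul, Matrix.mul_add, Matrix.add_mul, h1, add_comm]

theorem step_other {s t q r : Fin 4 → Mt E} (h : Rel s t) (h' : Rel q r) {j k : Fin 4}
    (hjk : j ≠ k) {C : Mt E × Mt E} (hC : Good s t q r j C) :
    Good s t q r j (step s t q r k C) := by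
  constructor
  · change s j * ((2⁻¹ : E) • (C.2 + t k * C.1 * q k)) * r j = (2⁻¹ : E) • (C.1 + s k * C.2 * r k)
    have h1 : s j * (t k * C.1 * q k) * r j = s k * C.2 * r k := by
      have e1 : s j * (t k * C.1 * q k) * r j = (s j * t k) * C.1 * (q k * r j) := by
        simp only [Matrix.mul_assoc]
      have e2 : s k * (t j * C.1 * q j) * r k = (s k * t j) * C.1 * (q j * r k) := by
        simp only [Matrix.mul_assoc]
      rw [e1, h.anti j k hjk, h'.anti k j hjk.symm, Matrix.neg_mul, Matrix.neg_mul, Matrix.mul_neg,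
        neg_neg, ← e2, hC.2]
    rw [Matrix.mul_smul, Matrix.smul_mul, Matrix.mul_add, Matrix.add_mul, h1, hC.1]
  · change t j * ((2⁻¹ : E) • (C.1 + s k * C.2 * r k)) * q j = (2⁻¹ : E) • (C.2 + t k * C.1 * q k)
    have h1 : t j * (s k * C.2 * r k) * q j = t k * C.1 * q k := by
      have e1 : t j * (s k * C.2 * r k) * q j = (t j * s k) * C.2 * (r k * q j) := by
        simp only [Matrix.mul_assoc]
      have e2 : t k * (s j * C.2 * r j) * q k = (t k * s j) * C.2 * (r j * q k) := by
        simp only [Matrix.mul_assoc]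
      rw [e1, h.anti' j k hjk, h'.anti' k j hjk.symm, Matrix.neg_mul, Matrix.neg_mul,
        Matrix.mul_neg, neg_neg, ← e2, hC.1]
    rw [Matrix.mul_smul, Matrix.smul_mul, Matrix.mul_add, Matrix.add_mul, h1, hC.2]

/-- The averaged pair. -/
def avg (s t q r : Fin 4 → Mt E) : Mt E × Mt E :=
  step s t q r 3 (step s t q r 2 (step s t q r 1 (step s t q r 0 (1, 1))))

theorem avg_good {s t q r : Fin 4 → Mt E} (h : Rel s t) (h' : Rel q r) (j : Fin 4) :
    Good s t q r j (avg s t q r) := by
  unfold avg
  fin_cases j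
  · exact step_other h h' (by decide) (step_other h h' (by decide)
      (step_other h h' (by decide) (step_self h h' _ _)))
  · exact step_other h h' (by decide) (step_other h h' (by decide) (step_self h h' _ _))
  · exact step_other h h' (by decide) (step_self h h' _ _)
  · exact step_self h h' _ _

/-- The polar form of the determinant. -/
def pol (X Y : Mt E) : E := (X + Y).det - X.det - Y.det

theorem mul_adj_add (X Y : Mt E) : X * Y.adjugate + Y * X.adjugate = pol X Y • (1 : Mt E) := by
  unfold pol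
  rw [Matrix.det_fin_two, Matrix.det_fin_two, Matrix.det_fin_two]
  ext i j
  fin_cases i <;> fin_cases j <;>
    simp [Matrix.adjugate_fin_two, Matrix.mul_apply, Fin.sum_univ_two] <;> ring

theorem pol_adj (X Y : Mt E) : pol X.adjugate Y.adjugate = pol X Y := by
  unfold pol
  simp only [Matrix.det_fin_two, Matrix.adjugate_fin_two, Matrix.add_apply, Matrix.of_apply,
    Matrix.cons_val', Matrix.cons_val_zero, Matrix.cons_val_one]
  simp
  ring

theorem adj_adj (X : Mt E) : X.adjugate.adjugate = X := by
  rw [Matrix.adjugate_fin_two, Matrix.adjugate_fin_two]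
  ext i j
  fin_cases i <;> fin_cases j <;> simp

theorem adj_mul_add (X Y : Mt E) : X.adjugate * Y + Y.adjugate * X = pol X Y • (1 : Mt E) := by
  have h := mul_adj_add X.adjugate Y.adjugate
  rwa [adj_adj, adj_adj, pol_adj] at h

/-- Orthonormal families give the relations. -/
theorem rel_of_orth {s : Fin 4 → Mt E} (h1 : ∀ i, (s i).det = 1)
    (h2 : ∀ i j, i ≠ j → pol (s i) (s j) = 0) : Rel s (fun i => (s i).adjugate) where
  st i := by rw [Matrix.mul_adjugate, h1, one_smul]
  ts i := by rw [Matrix.adjugate_mul, h1, one_smul]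
  anti i j hij := by
    rw [eq_neg_iff_add_eq_zero, mul_adj_add, h2 i j hij, zero_smul]
  anti' i j hij := by
    rw [eq_neg_iff_add_eq_zero, adj_mul_add, h2 i j hij, zero_smul]

/-- The quaternion units. -/
def qu (I : E) : Fin 4 → Mt E := ![1, !![I, 0; 0, -I], !![0, 1; -1, 0], !![0, I; I, 0]]

theorem qu_det {I : E} (hI : I * I = -1) (i : Fin 4) : (qu I i).det = 1 := by
  fin_cases i
  · simp [qu]
  · simp [qu, Matrix.det_fin_two, hI]
  · simp [qu, Matrix.det_fin_two]
  · simp [qu, Matrix.det_fin_two, hI]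

/-- The combinations of the quaternion units. -/
def comb (I : E) : (Fin 4 → E) →ₗ[E] Mt E := Fintype.linearCombination E (qu I)

theorem comb_apply (I : E) (x : Fin 4 → E) : comb I x =
    !![x 0 + I * x 1, x 2 + I * x 3; - x 2 + I * x 3, x 0 - I * x 1] := by
  rw [comb, Fintype.linearCombination_apply, Fin.sum_univ_four]
  ext i j
  fin_cases i <;> fin_cases j <;> simp [qu] <;> ring

theorem comb_det {I : E} (hI : I * I = -1) (x : Fin 4 → E) :
    (comb I x).det = x 0 ^ 2 + x 1 ^ 2 + x 2 ^ 2 + x 3 ^ 2 := by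
  rw [comb_apply, Matrix.det_fin_two]
  simp
  linear_combination (- x 1 ^ 2 - x 3 ^ 2) * hI

theorem comb_surj {I : E} (hI : I * I = -1) (h2 : (2 : E) ≠ 0) :
    Function.Surjective (comb I) := by
  intro X
  have hI0 : I ≠ 0 := by
    rintro rfl
    simp at hI
  refine ⟨![(X 0 0 + X 1 1) / 2, (X 0 0 - X 1 1) / (2 * I), (X 0 1 - X 1 0) / 2,
    (X 0 1 + X 1 0) / (2 * I)], ?_⟩
  rw [comb_apply]
  ext i j
  fin_cases i <;> fin_cases j <;> simp <;> field_simp <;> ring

theorem qu_pol {I : E} (hI : I * I = -1) : ∀ i j, i ≠ j → pol (qu I i) (qu I j) = 0 := by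
  intro i j hij
  have h1 : ∀ i, qu I i = comb I (Pi.single i 1) := by
    intro i
    rw [comb, Fintype.linearCombination_apply_single, one_smul]
  unfold pol
  rw [h1 i, h1 j, ← map_add, comb_det hI, comb_det hI, comb_det hI]
  fin_cases i <;> fin_cases j <;> simp_all [Pi.single_apply]

theorem qu_rel {I : E} (hI : I * I = -1) : Rel (qu I) (fun i => (qu I i).adjugate) :=
  rel_of_orth (qu_det hI) (qu_pol hI)

/-- **Isometries of the determinant form near the identity.** -/
theorem avg_intertwines {I : E} (hI : I * I = -1) (h2 : (2 : E) ≠ 0) (g : Mt E →ₗ[E] Mt E)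
    (hg : ∀ X, (g X).det = X.det) (X : Mt E) :
    g X * (avg (fun i => g (qu I i)) (fun i => (g (qu I i)).adjugate) (qu I)
      (fun i => (qu I i).adjugate)).2 =
    (avg (fun i => g (qu I i)) (fun i => (g (qu I i)).adjugate) (qu I)
      (fun i => (qu I i).adjugate)).1 * X := by
  have hpol := qu_pol hI
  have hq : Rel (qu I) (fun i => (qu I i).adjugate) := rel_of_orth (qu_det hI) hpol
  have hs : Rel (fun i => g (qu I i)) (fun i => (g (qu I i)).adjugate) := by
    refine rel_of_orth (fun i => by rw [hg, qu_det hI]) fun i j hij => ?_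
    unfold pol
    rw [← map_add, hg, hg, hg]
    exact hpol i j hij
  set C := avg (fun i => g (qu I i)) (fun i => (g (qu I i)).adjugate) (qu I)
      (fun i => (qu I i).adjugate) with hC
  have key : ∀ j, g (qu I j) * C.2 = C.1 * qu I j := by
    intro j
    have h := (avg_good hs hq j).1
    rw [← hC] at h
    rw [← h, Matrix.mul_assoc (g (qu I j) * C.2), hq.ts j, Matrix.mul_one]
  obtain ⟨x, rfl⟩ := comb_surj hI h2 X
  rw [comb, Fintype.linearCombination_apply, map_sum, Matrix.sum_mul, Matrix.mul_sum]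
  refine Finset.sum_congr rfl fun j _ => ?_
  rw [map_smul, Matrix.smul_mul, Matrix.mul_smul, key]

end Pool.Agent.K1H15.OG
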