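import Pool.Agent.K1H15.OG.Lift

/-!
# Orthogonal representations of rank three and four: forms
-/

set_option autoImplicit false

open Matrix Filter Topology Module

namespace Pool.Agent.K1H15.OG

open Pool.Agent.K1H13.GO Pool.Agent.K1H12.RP

section algebra

variable {E : Type} [Field E] {V : Type} [AddCommGroup V] [Module E V]
  [FiniteDimensional E V]

/-- A nondegenerate symmetric form of rank four is the determinant of 2 x 2 matrices. -/
theorem exists_coord [IsAlgClosed E] (h2 : (2 : E) ≠ 0) (hd : finrank E V = 4)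
    (b : LinearMap.BilinForm E V) (hs : ∀ u v, b u v = b v u)
    (hn : ∀ u, (∀ v, b u v = 0) → u = 0) :
    ∃ T : V ≃ₗ[E] Mt E, ∀ v, (T v).det = b v v := by
  classical
  letI : Invertible (2 : E) := invertibleOfNonzero h2
  obtain ⟨I, hI⟩ : ∃ I : E, I * I = -1 := by
    obtain ⟨I, hI⟩ := IsAlgClosed.exists_pow_nat_eq (-1 : E) (n := 2) (by norm_num)
    exact ⟨I, by rw [← hI, sq]⟩
  obtain ⟨e0, he0⟩ := LinearMap.BilinForm.exists_orthogonal_basis (B := b) ⟨hs⟩
  set e : Basis (Fin 4) E V := e0.reindex (finCongr hd) with he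
  have ho : ∀ i j, i ≠ j → b (e i) (e j) = 0 := by
    intro i j hij
    rw [he, Basis.reindex_apply, Basis.reindex_apply]
    exact he0 (fun h => hij ((finCongr hd).symm.injective h))
  choose r hr using fun i => IsAlgClosed.exists_pow_nat_eq (b (e i) (e i)) (n := 2) (by norm_num)
  set T : V →ₗ[E] Mt E := comb I ∘ₗ LinearMap.pi (fun i => r i • e.coord i) with hT
  have hTd : ∀ v, (T v).det = b v v := by
    intro v
    rw [hT, LinearMap.comp_apply, comb_det hI]
    simp only [LinearMap.pi_apply, LinearMap.smul_apply, Basis.coord_apply, smul_eq_mul, mul_pow,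
      hr]
    set x := e.repr v with hx
    have hv : v = x 0 • e 0 + x 1 • e 1 + x 2 • e 2 + x 3 • e 3 := by
      conv_lhs => rw [← e.sum_repr v]
      rw [Fin.sum_univ_four]
    have hb : ∀ i, b v (e i) = x i * b (e i) (e i) := by
      intro i
      conv_lhs => rw [← e.sum_repr v]
      rw [map_sum, LinearMap.sum_apply, Finset.sum_eq_single i]
      · rw [map_smul, LinearMap.smul_apply, smul_eq_mul]
      · intro j _ hj
        rw [map_smul, LinearMap.smul_apply, ho j i hj, smul_zero]
      · intro h
        exact absurd (Finset.mem_univ i) h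
    have h5 : b v v = ∑ i, x i * b v (e i) := by
      conv_lhs => rw [← e.sum_repr v]
      rw [map_sum]
      conv_lhs => rw [e.sum_repr v]
      exact Finset.sum_congr rfl fun i _ => by rw [map_smul, smul_eq_mul]
    rw [h5, Fin.sum_univ_four, hb, hb, hb, hb]
    ring
  have hinj : Function.Injective T := by
    rw [← LinearMap.ker_eq_bot, LinearMap.ker_eq_bot']
    intro v hv
    refine hn v fun w => ?_
    have h1 : b (v + w) (v + w) = b w w := by rw [← hTd, ← hTd, map_add, hv, zero_add]
    have h3 : b v v = 0 := by rw [← hTd, hv, Matrix.det_zero]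
    simp only [map_add, LinearMap.add_apply, h3, hs w v] at h1
    have h4 : 2 * b v w = 0 := by linear_combination h1
    exact (mul_eq_zero.1 h4).resolve_left h2
  have hf : finrank E V = finrank E (Mt E) := by
    rw [hd, Module.finrank_matrix]
    simp
  refine ⟨LinearMap.linearEquivOfInjective T hinj hf, fun v => ?_⟩
  rw [LinearMap.linearEquivOfInjective_apply]
  exact hTd v

theorem factor_pow {b : LinearMap.BilinForm E V} (hn : ∀ u, (∀ v, b u v = 0) → u = 0)
    {f : V →ₗ[E] V} {c : E} (h : ∀ u v, b (f u) (f v) = c * b u v) :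
    c ^ finrank E V = LinearMap.det f ^ 2 := by
  classical
  let e := Module.finBasis E V
  have h1 : b.comp f f = c • b := by
    ext u v
    rw [LinearMap.BilinForm.comp_apply, h]
    rfl
  have h2 := LinearMap.BilinForm.toMatrix_comp e e b f f
  rw [h1] at h2
  have h3 := congrArg Matrix.det h2
  have hne : (LinearMap.BilinForm.toMatrix e b).det ≠ 0 := by
    rw [← LinearMap.BilinForm.nondegenerate_iff_det_ne_zero]
    exact LinearMap.BilinForm.Nondegenerate.ofSeparatingLeft hn
  rw [map_smul, Matrix.det_smul, Matrix.det_mul, Matrix.det_mul, Matrix.det_transpose,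
    Fintype.card_fin, LinearMap.det_toMatrix] at h3
  have h4 : (c ^ finrank E V - LinearMap.det f ^ 2) * (LinearMap.BilinForm.toMatrix e b).det = 0 := by
    linear_combination h3
  exact sub_eq_zero.1 ((mul_eq_zero.1 h4).resolve_right hne)

end algebra

section topology

variable {E : Type} [NormedField E] {V : Type} [AddCommGroup V] [Module E V]
  [FiniteDimensional E V] {P : Type} [Group P]
  [TopologicalSpace P]

theorem continuous_form (b : LinearMap.BilinForm E V) {r : Representation E P V}
    (hr : IsContinuousRep r) (u v : V) : Continuous fun x => b (r x u) (r x v) := by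
  let e := Module.finBasis E V
  have h1 : (fun x => b (r x u) (r x v)) = fun x => ∑ k, e.coord k (r x u) * b (e k) (r x v) := by
    funext x
    conv_lhs => rw [← e.sum_repr (r x u)]
    rw [map_sum, LinearMap.sum_apply]
    exact Finset.sum_congr rfl fun k _ => by
      rw [map_smul, LinearMap.smul_apply, smul_eq_mul, Basis.coord_apply]
  rw [h1]
  exact continuous_finset_sum _ fun k _ => (hr _ _).mul (hr _ _)

variable [IsTopologicalGroup P] [CompactSpace P] [TotallyDisconnectedSpace P]

/-- The factor is trivial on an open subgroup. -/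
theorem exists_open_factor {b : LinearMap.BilinForm E V} (hn : ∀ u, (∀ v, b u v = 0) → u = 0)
    [Nontrivial V] {r : Representation E P V} (hr : IsContinuousRep r)
    (hdet : ∃ n : ℕ, 0 < n ∧ ∀ g, LinearMap.det (r g) ^ n = 1) {c : P → E}
    (h : ∀ x u v, b (r x u) (r x v) = c x * b u v) :
    ∃ H0 : Subgroup P, IsOpen (H0 : Set P) ∧ ∀ x ∈ H0, ∀ u v, b (r x u) (r x v) = b u v := by
  obtain ⟨n, hn0, hdet⟩ := hdet
  obtain ⟨u, hu⟩ := exists_ne (0 : V)
  obtain ⟨v, hv⟩ : ∃ v, b u v ≠ 0 := by
    by_contra hcon
    push Not at hcon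
    exact hu (hn u hcon)
  have hd : 0 < finrank E V := finrank_pos
  obtain ⟨ε, hε, hsep⟩ := root_sep E (d := finrank E V * n) (by positivity)
  have hc : ∀ x, c x ^ (finrank E V * n) = 1 := by
    intro x
    rw [pow_mul, factor_pow hn (h x), ← pow_mul, mul_comm 2 n, pow_mul, hdet, one_pow]
  have ht : Tendsto c (𝓝 1) (𝓝 1) := by
    have h1 : c = fun x => b (r x u) (r x v) / b u v := by
      funext x
      rw [h, mul_div_assoc, div_self hv, mul_one]
    have h3 := ((continuous_form b hr u v).div_const (b u v)).tendsto 1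
    rw [map_one, Module.End.one_apply, Module.End.one_apply, div_self hv, ← h1] at h3
    exact h3
  have ev : ∀ᶠ x in 𝓝 (1 : P), c x = 1 := by
    filter_upwards [(Metric.tendsto_nhds.1 ht) ε hε] with x hx
    rw [dist_eq_norm] at hx
    exact hsep _ (hc x) hx
  obtain ⟨H, hH, -, h1⟩ := small ev
  exact ⟨H, hH, fun x hx u v => by rw [h, h1 x hx, one_mul]⟩

end topology

end Pool.Agent.K1H15.OG
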