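import Pool.Agent.Y126.SH.BN
import Pool.Agent.K1H15.OG.Form

/-!
# Irreducible representations which are self-dual up to a character: invariant forms
-/

set_option autoImplicit false

open Matrix Filter Topology Module

namespace Pool.Agent.K1H15.OG

open Pool.Agent.K1H13.GO Pool.Agent.K1H12.RP Pool.Agent.Y126.SH Pool.Agent.Y800

section matrices

variable {E : Type} [Field E] {V : Type} [AddCommGroup V] [Module E V]
  {P : Type} [Group P] {n : ℕ}

/-- No proper stable subspaces. -/
def Simp (r : Representation E P V) : Prop :=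
  ∀ U : Submodule E V, (∀ g, ∀ u ∈ U, r g u ∈ U) → U = ⊥ ∨ U = ⊤

theorem simp_of_irr {r : Representation E P V} (h : r.IsIrreducible) : Simp r ∧ Nontrivial V := by
  constructor
  · intro U hU
    let U' : Subrepresentation r := ⟨U, fun g u hu => hU g u hu⟩
    rcases eq_bot_or_eq_top U' with h | h
    · left
      exact congrArg Subrepresentation.toSubmodule h
    · right
      exact congrArg Subrepresentation.toSubmodule h
  · by_contra hcon
    rw [not_nontrivial_iff_subsingleton] at hcon
    have h1 : (⊥ : Subrepresentation r) ≠ ⊤ := bot_ne_top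
    exact h1 (Subrepresentation.toSubmodule_injective (Subsingleton.elim _ _))

/-- The matrices of a representation. -/
noncomputable def mat (e : Basis (Fin n) E V) (r : Representation E P V) :
    P →* Matrix (Fin n) (Fin n) E where
  toFun g := LinearMap.toMatrix e e (r g)
  map_one' := by rw [map_one]; exact LinearMap.toMatrix_one e
  map_mul' g h := by rw [map_mul]; exact LinearMap.toMatrix_mul e _ _

theorem mat_mulVec (e : Basis (Fin n) E V) (r : Representation E P V) (g : P) (v : V) :
    (mat e r g).mulVec (e.equivFun v) = e.equivFun (r g v) :=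
  LinearMap.toMatrix_mulVec_repr e e (r g) v

theorem mat_trace (e : Basis (Fin n) E V) (r : Representation E P V) (g : P) :
    (mat e r g).trace = LinearMap.trace E V (r g) :=
  (LinearMap.trace_eq_matrix_trace E e (r g)).symm

/-- The twisted contragredient. -/
noncomputable def dmat (e : Basis (Fin n) E V) (r : Representation E P V) (χ : P →* Eˣ) :
    P →* Matrix (Fin n) (Fin n) E where
  toFun g := ((χ g⁻¹ : Eˣ) : E) • (mat e r g⁻¹)ᵀ
  map_one' := by rw [inv_one, map_one, map_one, Units.val_one, one_smul, Matrix.transpose_one]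
  map_mul' g h := by
    rw [_root_.mul_inv_rev, map_mul, map_mul, Matrix.transpose_mul, Units.val_mul, Matrix.smul_mul,
      Matrix.mul_smul, smul_smul, mul_comm ((χ h⁻¹ : Eˣ) : E)]

theorem dmat_apply (e : Basis (Fin n) E V) (r : Representation E P V) (χ : P →* Eˣ) (g : P) :
    dmat e r χ g = ((χ g⁻¹ : Eˣ) : E) • (mat e r g⁻¹)ᵀ := rfl

theorem stable_mat {e : Basis (Fin n) E V} {r : Representation E P V} (h : Simp r)
    {W : Submodule E (Fin n → E)} (hW : ∀ g, ∀ w ∈ W, (mat e r g).mulVec w ∈ W) :
    W = ⊥ ∨ W = ⊤ := by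
  have h1 : W.comap e.equivFun.toLinearMap = ⊥ ∨ W.comap e.equivFun.toLinearMap = ⊤ := by
    refine h _ fun g u hu => ?_
    change e.equivFun (r g u) ∈ W
    rw [← mat_mulVec]
    exact hW g _ hu
  have h3 : (W.comap e.equivFun.toLinearMap).map e.equivFun.toLinearMap = W :=
    Submodule.map_comap_eq_of_surjective e.equivFun.surjective _
  rcases h1 with h1 | h1
  · left
    rw [← h3, h1, Submodule.map_bot]
  · right
    rw [← h3, h1, Submodule.map_top, LinearMap.range_eq_top]
    exact e.equivFun.surjective

theorem stable_dmat {e : Basis (Fin n) E V} {r : Representation E P V} {χ : P →* Eˣ}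
    (h : Simp r) {W : Submodule E (Fin n → E)}
    (hW : ∀ g, ∀ w ∈ W, (dmat e r χ g).mulVec w ∈ W) : W = ⊥ ∨ W = ⊤ := by
  classical
  have h1 : ∀ g, ∀ w ∈ W, ((mat e r g)ᵀ).mulVec w ∈ W := by
    intro g w hw
    have h2 := hW g⁻¹ w hw
    rw [dmat_apply, inv_inv, Matrix.smul_mulVec] at h2
    have h3 := W.smul_mem (((χ g : Eˣ) : E)⁻¹) h2
    rwa [smul_smul, inv_mul_cancel₀ (χ g).ne_zero, one_smul] at h3
  let W₀ : Submodule E (Fin n → E) :=
    { carrier := {v | ∀ w ∈ W, w ⬝ᵥ v = 0}
      add_mem' := fun {a b} ha hb w hw => by rw [dotProduct_add, ha w hw, hb w hw, add_zero]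
      zero_mem' := fun w _ => dotProduct_zero w
      smul_mem' := fun c a ha w hw => by rw [dotProduct_smul, ha w hw, smul_zero] }
  have h2 : W₀ = ⊥ ∨ W₀ = ⊤ := by
    refine stable_mat (e := e) h fun g v hv w hw => ?_
    have h3 := hv _ (h1 g w hw)
    rwa [Matrix.mulVec_transpose, ← Matrix.dotProduct_mulVec] at h3
  rcases h2 with h2 | h2
  · right
    by_contra hcon
    obtain ⟨f, hf, hf'⟩ := Submodule.exists_le_ker_of_lt_top W (lt_top_iff_ne_top.2 hcon)
    have h3 : (fun i => f (Pi.single i 1)) ∈ W₀ := by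
      intro w hw
      have h4 : f w = 0 := hf' hw
      have h5 : w = ∑ i, w i • (Pi.single i (1 : E) : Fin n → E) := by
        ext j
        rw [Finset.sum_apply]
        simp [Pi.single_apply]
      rw [h5, map_sum] at h4
      rw [dotProduct, ← h4]
      exact Finset.sum_congr rfl fun i _ => by rw [map_smul, smul_eq_mul]
    rw [h2, Submodule.mem_bot] at h3
    refine hf (LinearMap.ext fun w => ?_)
    have h5 : w = ∑ i, w i • (Pi.single i (1 : E) : Fin n → E) := by
      ext j
      rw [Finset.sum_apply]
      simp [Pi.single_apply]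
    rw [h5, map_sum, LinearMap.zero_apply]
    refine Finset.sum_eq_zero fun i _ => ?_
    have h6 := congrFun h3 i
    simp only [Pi.zero_apply] at h6
    rw [map_smul, h6, smul_zero]
  · left
    rw [Submodule.eq_bot_iff]
    intro w hw
    ext i
    have h3 : (Pi.single i (1 : E) : Fin n → E) ∈ W₀ := by rw [h2]; trivial
    have h4 := h3 w hw
    rwa [dotProduct_single, mul_one] at h4

end matrices

section forms

variable {E : Type} [Field E] [CharZero E] {V : Type} [AddCommGroup V] [Module E V]
  [FiniteDimensional E V] {P : Type} [Group P]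

/-- **An invariant form.** -/
theorem exists_form {r : Representation E P V} (h : Simp r) [Nontrivial V] {χ : P →* Eˣ}
    (hχ : ∀ g, LinearMap.trace E V (r g⁻¹) = ((χ g : Eˣ) : E) * LinearMap.trace E V (r g)) :
    ∃ b : LinearMap.BilinForm E V, b ≠ 0 ∧
      ∀ g u v, b (r g u) (r g v) = ((χ g⁻¹ : Eˣ) : E) * b u v := by
  classical
  set n := finrank E V with hn
  let e : Basis (Fin n) E V := Module.finBasis E V
  have hn0 : 0 < n := finrank_pos
  obtain ⟨A, hA⟩ := bn (mat e r).toHomUnits (dmat e r χ).toHomUnits hn0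
    (fun m hm _ => Nat.cast_ne_zero.2 (by omega)) (fun W hW => stable_mat (e := e) h hW)
    (fun W hW => stable_dmat (e := e) (χ := χ) h hW) (fun g => by
      change (mat e r g).trace = (dmat e r χ g).trace
      rw [dmat_apply, Matrix.trace_smul, Matrix.trace_transpose, mat_trace, mat_trace, hχ,
        smul_eq_mul, ← mul_assoc, ← Units.val_mul, ← map_mul, inv_mul_cancel, map_one,
        Units.val_one, one_mul])
  have hA' : ∀ g, ((mat e r g)ᵀ) * (A : Matrix (Fin n) (Fin n) E) * mat e r g =
      ((χ g⁻¹ : Eˣ) : E) • (A : Matrix (Fin n) (Fin n) E) := by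
    intro g
    have h1 : dmat e r χ g * (A : Matrix (Fin n) (Fin n) E) = A * mat e r g := hA g
    rw [Matrix.mul_assoc, ← h1, dmat_apply, Matrix.smul_mul, Matrix.mul_smul, ← Matrix.mul_assoc,
      ← Matrix.transpose_mul, ← map_mul, inv_mul_cancel, map_one, Matrix.transpose_one,
      Matrix.one_mul]
  have hne : (A : Matrix (Fin n) (Fin n) E) ≠ 0 := by
    have : Nonempty (Fin n) := ⟨⟨0, hn0⟩⟩
    exact A.ne_zero
  refine ⟨Matrix.toBilin e A, fun h0 => hne ?_, fun g u v => ?_⟩
  · exact (Matrix.toBilin e).map_eq_zero_iff.1 h0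
  · have h1 := Matrix.toBilin_comp e e (A : Matrix (Fin n) (Fin n) E) (mat e r g) (mat e r g)
    have h3 : Matrix.toLin e e (mat e r g) = r g := Matrix.toLin_toMatrix e e (r g)
    rw [h3, hA', map_smul] at h1
    have h4 := congrArg (fun f : LinearMap.BilinForm E V => f u v) h1
    exact h4

theorem nondeg_of_ne {r : Representation E P V} (h : Simp r) {b : LinearMap.BilinForm E V}
    (hb : b ≠ 0) {c : P → E} (hc : ∀ g u v, b (r g u) (r g v) = c g * b u v) :
    ∀ u, (∀ v, b u v = 0) → u = 0 := by
  have h1 : LinearMap.ker b = ⊥ ∨ LinearMap.ker b = ⊤ := by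
    refine h _ fun g u hu => ?_
    rw [LinearMap.mem_ker] at hu ⊢
    ext v
    have h2 : v = r g (r g⁻¹ v) := by
      rw [← Module.End.mul_apply, ← map_mul, mul_inv_cancel, map_one, Module.End.one_apply]
    rw [h2, hc, hu, LinearMap.zero_apply, mul_zero, LinearMap.zero_apply]
  rcases h1 with h1 | h1
  · intro u hu
    have h2 : u ∈ LinearMap.ker b := by
      rw [LinearMap.mem_ker]
      ext v
      exact hu v
    rwa [h1, Submodule.mem_bot] at h2
  · exact absurd (LinearMap.ker_eq_top.1 h1) hb

/-- Either a symmetric form or an alternating one. -/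
theorem sym_or_alt {r : Representation E P V} (h : Simp r) {b : LinearMap.BilinForm E V}
    (hb : b ≠ 0) {c : P → E} (hc : ∀ g u v, b (r g u) (r g v) = c g * b u v) :
    (∃ b' : LinearMap.BilinForm E V, (∀ u v, b' u v = b' v u) ∧
      (∀ u, (∀ v, b' u v = 0) → u = 0) ∧ ∀ g u v, b' (r g u) (r g v) = c g * b' u v) ∨
    (∀ u v, b u v = - b v u) := by
  by_cases h0 : b + b.flip = 0
  · right
    intro u v
    have h1 := congrArg (fun f : LinearMap.BilinForm E V => f u v) h0
    change b u v + b v u = 0 at h1
    exact eq_neg_of_add_eq_zero_left h1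
  · left
    have h1 : ∀ g u v, (b + b.flip) (r g u) (r g v) = c g * (b + b.flip) u v := by
      intro g u v
      change b (r g u) (r g v) + b (r g v) (r g u) = c g * (b u v + b v u)
      rw [hc, hc, mul_add]
    exact ⟨b + b.flip, fun u v => add_comm (b u v) (b v u), nondeg_of_ne h h0 h1, h1⟩

/-- Alternating forms of odd rank are degenerate. -/
theorem not_alt_odd {b : LinearMap.BilinForm E V} (hn : ∀ u, (∀ v, b u v = 0) → u = 0)
    (ha : ∀ u v, b u v = - b v u) (hd : Odd (finrank E V)) : False := by
  classical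
  let e := Module.finBasis E V
  have hne : (LinearMap.BilinForm.toMatrix e b).det ≠ 0 := by
    rw [← LinearMap.BilinForm.nondegenerate_iff_det_ne_zero]
    exact LinearMap.BilinForm.Nondegenerate.ofSeparatingLeft hn
  have h1 : (LinearMap.BilinForm.toMatrix e b)ᵀ = - LinearMap.BilinForm.toMatrix e b := by
    ext i j
    rw [Matrix.transpose_apply, Matrix.neg_apply, LinearMap.BilinForm.toMatrix_apply,
      LinearMap.BilinForm.toMatrix_apply, ha]
  have h2 := congrArg Matrix.det h1
  rw [Matrix.det_transpose, Matrix.det_neg, Fintype.card_fin, hd.neg_one_pow, neg_one_mul] at h2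
  have h3 : (2 : E) * (LinearMap.BilinForm.toMatrix e b).det = 0 := by linear_combination h2
  exact hne ((mul_eq_zero.1 h3).resolve_left two_ne_zero)

end forms

end Pool.Agent.K1H15.OG
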