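import Pool.Agent.K1H15.OG.Jord

/-!
# Irreducible self-dual representations of rank three and four
-/

set_option autoImplicit false

open Matrix Filter Topology Module

namespace Pool.Agent.K1H15.OG

open Pool.Agent.K1H13.GO Pool.Agent.K1H12.RP

section defs

variable {E : Type} [Field E] {V : Type} [AddCommGroup V] [Module E V] {P : Type} [Group P]

/-- The dual has the same traces as the twist by a character. -/
def SelfDualUpToCharacter (ρ : Representation E P V) : Prop :=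
  ∃ χ : P →* Eˣ, ∀ g, LinearMap.trace E V (ρ g⁻¹) = ((χ g : Eˣ) : E) * LinearMap.trace E V (ρ g)

/-- Unipotent with exactly one Jordan block of size three and no larger blocks and the square of
`f - 1` of rank one. -/
def OneBlockOfSizeThree (f : V →ₗ[E] V) : Prop :=
  (f - 1) ^ 3 = 0 ∧ finrank E (LinearMap.range ((f - 1) ^ 2)) = 1

end defs

variable {E : Type} [NormedField E] [IsAlgClosed E] [CharZero E] {V : Type} [AddCommGroup V]
  [Module E V] [FiniteDimensional E V] {P : Type} [Group P]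
  [TopologicalSpace P] [IsTopologicalGroup P] [CompactSpace P] [TotallyDisconnectedSpace P]

theorem rank_three_irr (hd : finrank E V = 3) (ρ : Representation E P V)
    (hρ : IsContinuousRep ρ) (hdet : FiniteDeterminant ρ) (hirr : ρ.IsIrreducible)
    (hself : SelfDualUpToCharacter ρ) :
    ∃ (H : Subgroup P) (σ : H →* SL E) (T : V →ₗ[E] Mt E),
      IsOpen (H : Set P) ∧ Continuous σ ∧
      Function.Injective T ∧ (∀ X : Mt E, X.trace = 0 ↔ ∃ v, T v = X) ∧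
      ∀ (x : H) (v : V), T (ρ x v) = (σ x : Mt E) * T v * ((σ x)⁻¹ : SL E) := by
  obtain ⟨hs, hnt⟩ := simp_of_irr hirr
  obtain ⟨χ, hχ⟩ := hself
  obtain ⟨b, hb, hc⟩ := exists_form hs hχ
  rcases sym_or_alt (c := fun g => ((χ g⁻¹ : Eˣ) : E)) hs hb hc with ⟨b', h1, h2, h3⟩ | h
  · obtain ⟨H, σ, T, a1, a2, -, a3, a4, a5⟩ := rank_three two_ne_zero hd b' h1 h2 ρ hρ hdet _ h3
    exact ⟨H, σ, T, a1, a2, a3, a4, a5⟩
  · exact (not_alt_odd (nondeg_of_ne (c := fun g => ((χ g⁻¹ : Eˣ) : E)) hs hb hc) h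
      (by rw [hd]; decide)).elim

theorem rank_four_irr (hd : finrank E V = 4) (ρ : Representation E P V)
    (hρ : IsContinuousRep ρ) (hdet : FiniteDeterminant ρ) (hirr : ρ.IsIrreducible)
    (hself : SelfDualUpToCharacter ρ) {x : P} (hx : OneBlockOfSizeThree (ρ x)) :
    ∃ (H : Subgroup P) (σ₁ σ₂ : H →* SL E) (T : V ≃ₗ[E] Mt E),
      IsOpen (H : Set P) ∧ Continuous σ₁ ∧ Continuous σ₂ ∧
      (∀ (y : H) (v : V), T (ρ y v) = (σ₁ y : Mt E) * T v * ((σ₂ y)⁻¹ : SL E)) ∧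
      ∀ (m : ℕ) (hm : x ^ m ∈ H), 0 < m → σ₁ ⟨x ^ m, hm⟩ ≠ 1 ∧ σ₂ ⟨x ^ m, hm⟩ ≠ 1 := by
  obtain ⟨hs, hnt⟩ := simp_of_irr hirr
  obtain ⟨χ, hχ⟩ := hself
  obtain ⟨b, hb, hc⟩ := exists_form hs hχ
  rcases sym_or_alt (c := fun g => ((χ g⁻¹ : Eˣ) : E)) hs hb hc with ⟨b', h1, h2, h3⟩ | h
  · obtain ⟨H, σ₁, σ₂, T, a1, a2, a3, -, a4⟩ := rank_four two_ne_zero hd b' h1 h2 ρ hρ hdet _ h3
    refine ⟨H, σ₁, σ₂, T, a1, a2, a3, a4, fun m hm hm0 => ?_⟩
    obtain ⟨k1, k2⟩ := pow_unip_sq (u := ρ x) hx.1 m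
    refine factors_ne (T := T) (f := ρ (x ^ m)) ?_ ?_ (fun v => a4 ⟨x ^ m, hm⟩ v)
    · rw [map_pow]
      exact k2
    · rw [map_pow]
      intro h0
      rw [k1] at h0
      have h5 : ((m : E) ^ 2) ≠ 0 := pow_ne_zero _ (Nat.cast_ne_zero.2 hm0.ne')
      have h6 := (smul_eq_zero.1 h0).resolve_left h5
      have h7 := hx.2
      rw [h6, LinearMap.range_zero, finrank_bot] at h7
      exact zero_ne_one h7
  · exact (not_alt_jordan (nondeg_of_ne (c := fun g => ((χ g⁻¹ : Eˣ) : E)) hs hb hc) h two_ne_zero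
      (hc x) hx.1 hx.2).elim

end Pool.Agent.K1H15.OG
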