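import Pool.Agent.K1H15.OG.Fin

/-!
# Irreducibility of the factors
-/

set_option autoImplicit false

open Matrix Filter Topology Module

namespace Pool.Agent.K1H15.OG

open Pool.Agent.K1H13.GO Pool.Agent.K1H12.RP

section defs

variable {E : Type} [CommRing E] {P : Type} [Group P] [TopologicalSpace P]

/-- Irreducible on the intersections with all open subgroups. -/
def IrreducibleOnOpenSubgroups {H : Subgroup P}
    (σ : H →* Matrix.SpecialLinearGroup (Fin 2) E) : Prop :=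
  ∀ L : Subgroup P, IsOpen (L : Set P) → ∀ U : Submodule E (Fin 2 → E),
    (∀ y : H, (y : P) ∈ L → ∀ u ∈ U, (σ y : Matrix (Fin 2) (Fin 2) E) *ᵥ u ∈ U) → U = ⊥ ∨ U = ⊤

end defs

section algebra

variable {E : Type} [Field E] {V : Type} [AddCommGroup V] [Module E V] [FiniteDimensional E V]
  {P : Type} [Group P]

theorem sq_of_two {U : Submodule E V} {N : Module.End E V} (hU : ∀ u ∈ U, N u ∈ U)
    (hd : finrank E U ≤ 2) (h3 : N ^ 3 = 0) : ∀ u ∈ U, (N ^ 2) u = 0 := by
  let N' : Module.End E U := LinearMap.restrict N hU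
  have h1 : ∀ (k : ℕ) (u : U), (((N' ^ k) u : U) : V) = (N ^ k) u := by
    intro k
    induction k with
    | zero => intro u; rfl
    | succ k ih =>
      intro u
      rw [pow_succ, pow_succ, Module.End.mul_apply, Module.End.mul_apply, ih]
      rfl
  intro u hu
  have h2 : (⟨u, hu⟩ : U) ∈ LinearMap.ker (N' ^ 3) := by
    rw [LinearMap.mem_ker]
    apply Subtype.ext
    rw [h1, h3]
    rfl
  have h4 := Module.End.ker_pow_le_ker_pow_finrank N' 3 h2
  rw [LinearMap.mem_ker] at h4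
  obtain ⟨k, hk⟩ := Nat.exists_eq_add_of_le' hd
  have h5 : (N' ^ 2) ⟨u, hu⟩ = 0 := by
    rw [hk, pow_add, Module.End.mul_apply, h4, map_zero]
  have h6 := h1 2 ⟨u, hu⟩
  rw [h5] at h6
  exact h6.symm

theorem conj_pow {r : Representation E P V} (g y : P) (n : ℕ) (v : V) :
    ((r (g * y * g⁻¹) - 1) ^ n) (r g v) = r g (((r y - 1) ^ n) v) := by
  induction n generalizing v with
  | zero => rfl
  | succ n ih =>
    rw [pow_succ, pow_succ, Module.End.mul_apply, Module.End.mul_apply, ← ih]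
    congr 1
    rw [LinearMap.sub_apply, LinearMap.sub_apply, Module.End.one_apply, Module.End.one_apply,
      map_sub, ← Module.End.mul_apply, ← Module.End.mul_apply, ← map_mul, ← map_mul,
      inv_mul_cancel_right]

theorem simp_sq {r : Representation E P V} (hs : Simp r) {L : Subgroup P} [hL : L.Normal]
    {U : Submodule E V} (hU0 : U ≠ ⊥) (hU : ∀ y ∈ L, ∀ u ∈ U, r y u ∈ U)
    (hd : finrank E U ≤ 2) {y : P} (hy : y ∈ L) (h3 : (r y - 1) ^ 3 = 0) : (r y - 1) ^ 2 = 0 := by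
  let Z : Submodule E V :=
    { carrier := {v | ∀ g, (((r (g * y * g⁻¹) - 1 : Module.End E V)) ^ 2) v = 0}
      add_mem' := fun {a b} ha hb g => by rw [map_add, ha g, hb g, add_zero]
      zero_mem' := fun g => map_zero _
      smul_mem' := fun c a ha g => by rw [map_smul, ha g, smul_zero] }
  have hZ : Z = ⊥ ∨ Z = ⊤ := by
    refine hs Z fun h v hv g => ?_
    have e1 : g * y * g⁻¹ = h * ((h⁻¹ * g) * y * (h⁻¹ * g)⁻¹) * h⁻¹ := by group
    rw [e1, conj_pow, hv, map_zero]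
  have hUZ : U ≤ Z := by
    intro u hu g
    have h1 : g * y * g⁻¹ ∈ L := hL.conj_mem y hy g
    refine sq_of_two (U := U) (N := r (g * y * g⁻¹) - 1) (fun v hv => ?_) hd ?_ u hu
    · rw [LinearMap.sub_apply, Module.End.one_apply]
      exact U.sub_mem (hU _ h1 v hv) hv
    · ext1 v
      have h2 : v = r g (r g⁻¹ v) := by
        rw [← Module.End.mul_apply, ← map_mul, mul_inv_cancel, map_one, Module.End.one_apply]
      rw [h2, conj_pow, h3, LinearMap.zero_apply, map_zero, LinearMap.zero_apply]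
  rcases hZ with hZ | hZ
  · rw [hZ, le_bot_iff] at hUZ
    exact absurd hUZ hU0
  · ext1 v
    have h1 : v ∈ Z := by rw [hZ]; trivial
    have h2 := h1 1
    rwa [one_mul, inv_one, mul_one] at h2

/-- The matrices with a given column space. -/
def vm (u : Fin 2 → E) : (Fin 2 → E) →ₗ[E] Mt E where
  toFun ξ := vecMulVec u ξ
  map_add' := vecMulVec_add u
  map_smul' c ξ := vecMulVec_smul c u ξ

/-- The matrices with a given row space. -/
def mv (u : Fin 2 → E) : (Fin 2 → E) →ₗ[E] Mt E where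
  toFun ξ := vecMulVec ξ u
  map_add' x y := add_vecMulVec x y u
  map_smul' c ξ := smul_vecMulVec c ξ u

/-- The orthogonal vector. -/
def perp (u : Fin 2 → E) : Fin 2 → E := ![-u 1, u 0]

theorem perp_ne {u : Fin 2 → E} (h : u ≠ 0) : perp u ≠ 0 := by
  intro h0
  apply h
  have h1 := congrFun h0 0
  have h2 := congrFun h0 1
  simp [perp] at h1 h2
  ext i
  fin_cases i
  · exact h2
  · exact h1

theorem perp_mul (u : Fin 2 → E) (A : SL E) :
    perp u ᵥ* ((A⁻¹ : SL E) : Mt E) = perp ((A : Mt E) *ᵥ u) := by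
  rw [Matrix.SpecialLinearGroup.coe_inv, Matrix.adjugate_fin_two]
  ext i
  fin_cases i <;> simp [perp, vecMul, mulVec, dotProduct, Fin.sum_univ_two] <;> ring

theorem perp_smul (l : E) (u : Fin 2 → E) : perp (l • u) = l • perp u := by
  ext i
  fin_cases i <;> simp [perp]

theorem single_ne : (Pi.single 0 1 : Fin 2 → E) ≠ 0 := by
  intro h
  have := congrFun h 0
  simp at this

end algebra

section irr

variable {E : Type} [NormedField E] [IsAlgClosed E] [CharZero E] {V : Type} [AddCommGroup V]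
  [Module E V] [FiniteDimensional E V] {P : Type} [Group P]
  [TopologicalSpace P] [IsTopologicalGroup P] [CompactSpace P] [TotallyDisconnectedSpace P]

theorem irr_of_lines {r : Representation E P V} (hs : Simp r) {x : P}
    (hx : OneBlockOfSizeThree (r x)) {H : Subgroup P} (hH : IsOpen (H : Set P)) {σ : H →* SL E}
    (hline : ∀ L : Subgroup P, L ≤ H → ∀ u₀ : Fin 2 → E, u₀ ≠ 0 →
      (∀ y : H, (y : P) ∈ L → ∃ l : E, (σ y : Mt E) *ᵥ u₀ = l • u₀) →
      ∃ U : Submodule E V, U ≠ ⊥ ∧ finrank E U ≤ 2 ∧ ∀ y ∈ L, ∀ u ∈ U, r y u ∈ U) :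
    IrreducibleOnOpenSubgroups σ := by
  intro L hL U hU
  by_contra hcon
  push Not at hcon
  obtain ⟨hU0, hU1⟩ := hcon
  obtain ⟨u₀, hu₀, hu₀'⟩ := Submodule.exists_mem_ne_zero_of_ne_bot hU0
  have hf : finrank E U = 1 := by
    have h1 : 0 < finrank E U := by
      have : Nontrivial U := Submodule.nontrivial_iff_ne_bot.2 hU0
      exact finrank_pos
    have h2 : finrank E U < 2 := by
      have := Submodule.finrank_lt hU1
      rwa [Module.finrank_fin_fun] at this
    omega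
  obtain ⟨L', hL'o, hL'n, hL'⟩ := small (P := P) (p := fun y => y ∈ L ∧ y ∈ H)
    (by filter_upwards [hL.mem_nhds L.one_mem, hH.mem_nhds H.one_mem] with y h1 h2
        exact ⟨h1, h2⟩)
  obtain ⟨U₁, h1, h2, h3⟩ := hline L' (fun y hy => (hL' y hy).2) u₀ hu₀' fun y hy => by
    have h4 := hU y (hL' y hy).1 u₀ hu₀
    obtain ⟨l, hl⟩ := (finrank_eq_one_iff_of_nonzero' (⟨u₀, hu₀⟩ : U)
      (fun h => hu₀' (congrArg Subtype.val h))).1 hf ⟨_, h4⟩
    exact ⟨l, (congrArg Subtype.val hl).symm⟩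
  have : Finite (P ⧸ L') := Subgroup.quotient_finite_of_isOpen L' hL'o
  obtain ⟨m, hm0, -, hm⟩ := Subgroup.exists_pow_mem_of_index_ne_zero
    (Subgroup.index_ne_zero_of_finite (H := L')) x
  obtain ⟨k1, k2⟩ := pow_unip_sq (u := r x) hx.1 m
  have h6 := simp_sq hs h1 h3 h2 hm (by rw [map_pow]; exact k2)
  rw [map_pow, k1] at h6
  have h5 : ((m : E) ^ 2) ≠ 0 := pow_ne_zero _ (Nat.cast_ne_zero.2 hm0.ne')
  have h7 := (smul_eq_zero.1 h6).resolve_left h5
  have h8 := hx.2
  rw [h7, LinearMap.range_zero, finrank_bot] at h8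
  exact zero_ne_one h8

theorem irr_four {r : Representation E P V} (hs : Simp r) {x : P}
    (hx : OneBlockOfSizeThree (r x)) {H : Subgroup P} (hH : IsOpen (H : Set P))
    {σ₁ σ₂ : H →* SL E} {T : V ≃ₗ[E] Mt E}
    (h : ∀ (y : H) (v : V), T (r y v) = (σ₁ y : Mt E) * T v * ((σ₂ y)⁻¹ : SL E)) :
    IrreducibleOnOpenSubgroups σ₁ ∧ IrreducibleOnOpenSubgroups σ₂ := by
  constructor
  · refine irr_of_lines hs hx hH fun L hL u₀ hu₀ hl => ?_
    refine ⟨LinearMap.range (T.symm.toLinearMap ∘ₗ vm u₀), ?_, ?_, ?_⟩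
    · rw [Ne, LinearMap.range_eq_bot]
      intro h0
      have h1 := LinearMap.congr_fun h0 (Pi.single 0 1)
      have h2 : T.symm (vecMulVec u₀ (Pi.single 0 1)) = 0 := h1
      exact vecMulVec_ne_zero hu₀ single_ne (T.symm.map_eq_zero_iff.1 h2)
    · refine (LinearMap.finrank_range_le _).trans ?_
      rw [Module.finrank_fin_fun]
    · rintro y hy _ ⟨ξ, rfl⟩
      obtain ⟨l, hl⟩ := hl ⟨y, hL hy⟩ hy
      refine ⟨l • (ξ ᵥ* (((σ₂ ⟨y, hL hy⟩)⁻¹ : SL E) : Mt E)), ?_⟩
      apply T.injective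
      have h1 := h ⟨y, hL hy⟩ (T.symm (vecMulVec u₀ ξ))
      rw [LinearEquiv.apply_symm_apply, mul_vecMulVec, vecMulVec_mul, hl] at h1
      change T (T.symm (vecMulVec u₀ _)) = T (r y (T.symm (vecMulVec u₀ ξ)))
      rw [LinearEquiv.apply_symm_apply, h1, vecMulVec_smul, smul_vecMulVec]
  · refine irr_of_lines hs hx hH fun L hL u₀ hu₀ hl => ?_
    refine ⟨LinearMap.range (T.symm.toLinearMap ∘ₗ mv (perp u₀)), ?_, ?_, ?_⟩
    · rw [Ne, LinearMap.range_eq_bot]
      intro h0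
      have h1 := LinearMap.congr_fun h0 (Pi.single 0 1)
      have h2 : T.symm (vecMulVec (Pi.single 0 1) (perp u₀)) = 0 := h1
      exact vecMulVec_ne_zero single_ne (perp_ne hu₀) (T.symm.map_eq_zero_iff.1 h2)
    · refine (LinearMap.finrank_range_le _).trans ?_
      rw [Module.finrank_fin_fun]
    · rintro y hy _ ⟨ξ, rfl⟩
      obtain ⟨l, hl⟩ := hl ⟨y, hL hy⟩ hy
      refine ⟨l • ((σ₁ ⟨y, hL hy⟩ : Mt E) *ᵥ ξ), ?_⟩
      apply T.injective
      have h1 := h ⟨y, hL hy⟩ (T.symm (vecMulVec ξ (perp u₀)))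
      rw [LinearEquiv.apply_symm_apply, mul_vecMulVec, vecMulVec_mul, perp_mul, hl, perp_smul] at h1
      change T (T.symm (vecMulVec _ (perp u₀))) = T (r y (T.symm (vecMulVec ξ (perp u₀))))
      rw [LinearEquiv.apply_symm_apply, h1, vecMulVec_smul, smul_vecMulVec]

theorem irr_three {r : Representation E P V} (hs : Simp r) {x : P}
    (hx : OneBlockOfSizeThree (r x)) {H : Subgroup P} (hH : IsOpen (H : Set P))
    {σ : H →* SL E} {T : V →ₗ[E] Mt E} (hT : Function.Injective T)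
    (hT' : ∀ X : Mt E, X.trace = 0 ↔ ∃ v, T v = X)
    (h : ∀ (y : H) (v : V), T (r y v) = (σ y : Mt E) * T v * ((σ y)⁻¹ : SL E)) :
    IrreducibleOnOpenSubgroups σ := by
  refine irr_of_lines hs hx hH fun L hL u₀ hu₀ hl => ?_
  obtain ⟨v, hv⟩ := (hT' (vecMulVec u₀ (perp u₀))).1 (by
    rw [Matrix.trace_fin_two, vecMulVec_apply, vecMulVec_apply]
    simp [perp]
    ring)
  have hv0 : v ≠ 0 := by
    rintro rfl
    rw [map_zero] at hv
    exact vecMulVec_ne_zero hu₀ (perp_ne hu₀) hv.symm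
  refine ⟨E ∙ v, ?_, ?_, ?_⟩
  · rwa [Ne, Submodule.span_singleton_eq_bot]
  · exact (finrank_span_singleton hv0).le.trans (by norm_num)
  · intro y hy u hu
    obtain ⟨a, rfl⟩ := Submodule.mem_span_singleton.1 hu
    obtain ⟨l, hl⟩ := hl ⟨y, hL hy⟩ hy
    have h1 := h ⟨y, hL hy⟩ v
    rw [hv, mul_vecMulVec, vecMulVec_mul, perp_mul, hl, perp_smul, vecMulVec_smul, smul_vecMulVec,
      ← hv, ← map_smul, ← map_smul] at h1
    have h2 : r y v = l • l • v := hT h1
    rw [map_smul, h2]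
    exact Submodule.smul_mem _ _ (Submodule.smul_mem _ _ (Submodule.smul_mem _ _
      (Submodule.mem_span_singleton_self v)))

end irr

end Pool.Agent.K1H15.OG
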