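import Pool.Agent.K1H15.OG.Form

/-!
# Orthogonal representations of rank three and four come from representations of rank two
-/

set_option autoImplicit false

open Matrix Filter Topology Module

namespace Pool.Agent.K1H15.OG

open Pool.Agent.K1H13.GO Pool.Agent.K1H12.RP

variable {E : Type} [NormedField E] [IsAlgClosed E] {V : Type} [AddCommGroup V] [Module E V]
  [FiniteDimensional E V] {P : Type} [Group P]
  [TopologicalSpace P] [IsTopologicalGroup P] [CompactSpace P] [TotallyDisconnectedSpace P]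

/-- The group `SL₂`. -/
abbrev SL (E : Type) [CommRing E] : Type := Matrix.SpecialLinearGroup (Fin 2) E

/-- The transported representation. -/
def transport (T : V ≃ₗ[E] Mt E) (r : Representation E P V) : Representation E P (Mt E) where
  toFun x := T.toLinearMap ∘ₗ r x ∘ₗ T.symm.toLinearMap
  map_one' := by
    ext1 X
    rw [map_one]
    simp
  map_mul' x y := by
    ext1 X
    rw [map_mul]
    simp

theorem transport_apply (T : V ≃ₗ[E] Mt E) (r : Representation E P V) (x : P) (X : Mt E) :
    transport T r x X = T (r x (T.symm X)) := rfl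

theorem hom_of_lift {H : Subgroup P} {R : P → Mt E}
    (hR : Tendsto R (𝓝 1) (𝓝 1)) (hd : ∀ x ∈ H, (R x).det = 1)
    (hm : ∀ x ∈ H, ∀ y ∈ H, R (x * y) = R x * R y) :
    ∃ σ : H →* SL E, Continuous σ ∧ ∀ x : H, (σ x : Mt E) = R x := by
  let σ : H →* SL E := MonoidHom.mk' (fun x => ⟨R x, hd x x.2⟩) fun x y =>
    Subtype.ext (hm x x.2 y y.2)
  refine ⟨σ, ?_, fun x => rfl⟩
  refine continuous_of_continuousAt_one σ ?_
  rw [ContinuousAt, map_one]
  refine tendsto_subtype_rng.2 ?_
  have h1 : Tendsto (fun x : H => (x : P)) (𝓝 1) (𝓝 1) := continuous_subtype_val.tendsto 1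
  exact hR.comp h1

/-- **Rank four.** -/
theorem rank_four (h2 : (2 : E) ≠ 0) (hd : finrank E V = 4) (b : LinearMap.BilinForm E V)
    (hs : ∀ u v, b u v = b v u) (hn : ∀ u, (∀ v, b u v = 0) → u = 0)
    (r : Representation E P V) (hr : IsContinuousRep r)
    (hdet : ∃ n : ℕ, 0 < n ∧ ∀ g, LinearMap.det (r g) ^ n = 1) (c : P → E)
    (h : ∀ x u v, b (r x u) (r x v) = c x * b u v) :
    ∃ (H : Subgroup P) (σ₁ σ₂ : H →* SL E) (T : V ≃ₗ[E] Mt E),
      IsOpen (H : Set P) ∧ Continuous σ₁ ∧ Continuous σ₂ ∧ (∀ v, (T v).det = b v v) ∧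
      ∀ (x : H) (v : V), T (r x v) = (σ₁ x : Mt E) * T v * ((σ₂ x)⁻¹ : SL E) := by
  have : Nontrivial V := Module.nontrivial_of_finrank_pos (R := E) (by omega)
  obtain ⟨T, hT⟩ := exists_coord h2 hd b hs hn
  obtain ⟨H0, hH0, h0⟩ := exists_open_factor hn hr hdet h
  have hg : IsContinuousRep (transport T r) := fun L X => hr (L ∘ₗ T.toLinearMap) (T.symm X)
  obtain ⟨H, R₁, R₂, hH, hHH, t₁, t₂, d₁, d₂, m₁, m₂, key⟩ := exists_lift h2 (transport T r) hg hH0
    (fun x hx X => by
      rw [transport_apply, hT, h0 x hx, ← hT, LinearEquiv.apply_symm_apply])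
  obtain ⟨σ₁, c₁, e₁⟩ := hom_of_lift t₁ d₁ m₁
  obtain ⟨σ₂, c₂, e₂⟩ := hom_of_lift t₂ d₂ m₂
  refine ⟨H, σ₁, σ₂, T, hH, c₁, c₂, hT, fun x v => ?_⟩
  have h3 := key x x.2 (T v)
  rw [transport_apply, LinearEquiv.symm_apply_apply] at h3
  rw [Matrix.SpecialLinearGroup.coe_inv, e₁, e₂, ← h3, Matrix.mul_assoc, Matrix.mul_adjugate,
    d₂ x x.2, one_smul, Matrix.mul_one]

/-- The orthogonal sum with the trivial representation. -/
def plus (r : Representation E P V) : Representation E P (V × E) where
  toFun x := (r x).prodMap LinearMap.id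
  map_one' := by
    rw [map_one]
    rfl
  map_mul' x y := by
    rw [map_mul]
    rfl

theorem plus_apply (r : Representation E P V) (x : P) (p : V × E) :
    plus r x p = (r x p.1, p.2) := rfl

/-- The form of the orthogonal sum. -/
def plusForm (b : LinearMap.BilinForm E V) : LinearMap.BilinForm E (V × E) :=
  b.compl₁₂ (LinearMap.fst E V E) (LinearMap.fst E V E) +
    (LinearMap.mul E E).compl₁₂ (LinearMap.snd E V E) (LinearMap.snd E V E)

theorem plusForm_apply (b : LinearMap.BilinForm E V) (p q : V × E) :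
    plusForm b p q = b p.1 q.1 + p.2 * q.2 := rfl

theorem plus_cont {r : Representation E P V} (hr : IsContinuousRep r) :
    IsContinuousRep (plus r) := by
  intro L p
  have h1 : (fun x => L (plus r x p)) =
      fun x => (L ∘ₗ LinearMap.inl E V E) (r x p.1) + L (0, p.2) := by
    funext x
    rw [plus_apply, LinearMap.comp_apply, LinearMap.inl_apply, ← map_add, Prod.mk_add_mk, add_zero,
      zero_add]
  rw [h1]
  exact (hr _ _).add continuous_const

/-- **Rank three.** -/
theorem rank_three (h2 : (2 : E) ≠ 0) (hd : finrank E V = 3) (b : LinearMap.BilinForm E V)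
    (hs : ∀ u v, b u v = b v u) (hn : ∀ u, (∀ v, b u v = 0) → u = 0)
    (r : Representation E P V) (hr : IsContinuousRep r)
    (hdet : ∃ n : ℕ, 0 < n ∧ ∀ g, LinearMap.det (r g) ^ n = 1) (c : P → E)
    (h : ∀ x u v, b (r x u) (r x v) = c x * b u v) :
    ∃ (H : Subgroup P) (σ : H →* SL E) (T : V →ₗ[E] Mt E),
      IsOpen (H : Set P) ∧ Continuous σ ∧ (∀ v, (T v).det = b v v) ∧
      Function.Injective T ∧ (∀ X : Mt E, X.trace = 0 ↔ ∃ v, T v = X) ∧
      ∀ (x : H) (v : V), T (r x v) = (σ x : Mt E) * T v * ((σ x)⁻¹ : SL E) := by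
  have : Nontrivial V := Module.nontrivial_of_finrank_pos (R := E) (by omega)
  have hd' : finrank E (V × E) = 4 := by rw [Module.finrank_prod, hd, Module.finrank_self]
  have hs' : ∀ u v, plusForm b u v = plusForm b v u := fun u v => by
    rw [plusForm_apply, plusForm_apply, hs, mul_comm]
  have hn' : ∀ u, (∀ v, plusForm b u v = 0) → u = 0 := by
    intro u hu
    have h1 : u.1 = 0 := hn _ fun v => by
      have := hu (v, 0)
      rwa [plusForm_apply, mul_zero, add_zero] at this
    have h3 : u.2 = 0 := by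
      have := hu (0, 1)
      rwa [plusForm_apply, map_zero, zero_add, mul_one] at this
    exact Prod.ext h1 h3
  obtain ⟨T, hT⟩ := exists_coord h2 hd' (plusForm b) hs' hn'
  obtain ⟨H0, hH0, h0⟩ := exists_open_factor hn hr hdet h
  have hg : IsContinuousRep (transport T (plus r)) := fun L X =>
    plus_cont hr (L ∘ₗ T.toLinearMap) (T.symm X)
  obtain ⟨H, R₁, R₂, hH, hHH, t₁, t₂, d₁, d₂, m₁, m₂, key⟩ := exists_lift h2
    (transport T (plus r)) hg hH0 (fun x hx X => by
      rw [transport_apply, hT, plusForm_apply, plus_apply, h0 x hx, ← plusForm_apply, ← hT,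
        LinearEquiv.apply_symm_apply])
  obtain ⟨σ, cσ, eσ⟩ := hom_of_lift t₁ d₁ m₁
  set Z : Mt E := T (0, 1) with hZ
  have dZ : Z.det = 1 := by rw [hZ, hT, plusForm_apply, map_zero, zero_add, mul_one]
  have zz : Z * Z.adjugate = 1 := by rw [Matrix.mul_adjugate, dZ, one_smul]
  have zz' : Z.adjugate * Z = 1 := by rw [Matrix.adjugate_mul, dZ, one_smul]
  -- the representation fixes `Z`
  have hZfix : ∀ x ∈ H, Z * R₂ x = R₁ x * Z := by
    intro x hx
    have h1 := key x hx Z
    rwa [transport_apply, hZ, LinearEquiv.symm_apply_apply, plus_apply, map_zero] at h1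
  let S : V →ₗ[E] Mt E := (LinearMap.mulRight E Z.adjugate) ∘ₗ T.toLinearMap ∘ₗ LinearMap.inl E V E
  have hS : ∀ v, S v = T (v, 0) * Z.adjugate := fun v => rfl
  have hSd : ∀ v, (S v).det = b v v := by
    intro v
    have h1 : Z.adjugate.det = 1 := by
      have := congrArg Matrix.det zz
      rwa [Matrix.det_mul, dZ, one_mul, Matrix.det_one] at this
    rw [hS, Matrix.det_mul, h1, mul_one, hT, plusForm_apply, mul_zero, add_zero]
  have hSinj : Function.Injective S := by
    rw [← LinearMap.ker_eq_bot, LinearMap.ker_eq_bot']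
    intro v hv
    have h1 : T (v, 0) = 0 := by
      have h3 : T (v, 0) = S v * Z := by rw [hS, Matrix.mul_assoc, zz', Matrix.mul_one]
      rw [h3, hv, Matrix.zero_mul]
    have h3 := T.injective (h1.trans (map_zero T).symm)
    exact (Prod.ext_iff.1 h3).1
  have hSt : ∀ v, (S v).trace = 0 := by
    intro v
    have h1 := mul_adj_add (T (v, 0)) Z
    have h3 : pol (T (v, 0)) Z = 0 := by
      unfold pol
      rw [hZ, ← map_add, hT, hT, hT, Prod.mk_add_mk]
      simp only [plusForm_apply, map_zero, mul_zero, add_zero, zero_add, mul_one,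
        LinearMap.zero_apply]
      ring
    have h4 : (T (v, 0) * Z.adjugate).trace = (Z * (T (v, 0)).adjugate).trace := by
      rw [Matrix.adjugate_fin_two, Matrix.adjugate_fin_two, Matrix.trace_fin_two,
        Matrix.trace_fin_two]
      simp [Matrix.mul_apply, Fin.sum_univ_two]
      ring
    have h5 := congrArg Matrix.trace h1
    rw [h3, zero_smul, Matrix.trace_zero, Matrix.trace_add, ← h4, ← two_mul] at h5
    rw [hS]
    exact (mul_eq_zero.1 h5).resolve_left h2
  have hrange : LinearMap.range S = LinearMap.ker (Matrix.traceLinearMap (Fin 2) E E) := by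
    refine Submodule.eq_of_le_of_finrank_le ?_ ?_
    · rintro _ ⟨v, rfl⟩
      exact hSt v
    · rw [LinearMap.finrank_range_of_inj hSinj, hd]
      have h1 := LinearMap.finrank_range_add_finrank_ker (Matrix.traceLinearMap (Fin 2) E E)
      have h3 : LinearMap.range (Matrix.traceLinearMap (Fin 2) E E) = ⊤ := by
        rw [LinearMap.range_eq_top]
        intro a
        refine ⟨!![a, 0; 0, 0], ?_⟩
        simp [Matrix.trace_fin_two]
      have h6 : finrank E (Mt E) = 4 := by
        rw [Module.finrank_matrix]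
        simp
      rw [h3, finrank_top, Module.finrank_self, h6] at h1
      exact (Nat.add_left_cancel (h1.trans (by norm_num : 4 = 1 + 3))).le
  refine ⟨H, σ, S, hH, cσ, hSd, hSinj, fun X => ?_, fun x v => ?_⟩
  · have h1 : X ∈ LinearMap.range S ↔ X ∈ LinearMap.ker (Matrix.traceLinearMap (Fin 2) E E) := by
      rw [hrange]
    rw [LinearMap.mem_ker] at h1
    exact h1.symm
  · have h3 := key x x.2 (T (v, 0))
    rw [transport_apply, LinearEquiv.symm_apply_apply, plus_apply] at h3
    have h5 : T (r x v, 0) = R₁ x * T (v, 0) * (R₂ x).adjugate := by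
      rw [← h3, Matrix.mul_assoc, Matrix.mul_adjugate, d₂ x x.2, one_smul, Matrix.mul_one]
    have h6 : (R₂ x).adjugate * Z.adjugate = Z.adjugate * (R₁ x).adjugate := by
      rw [← Matrix.adjugate_mul_distrib, hZfix x x.2, Matrix.adjugate_mul_distrib]
    rw [Matrix.SpecialLinearGroup.coe_inv, eσ, hS, hS, h5, Matrix.mul_assoc (R₁ x * T (v, 0)), h6]
    simp only [Matrix.mul_assoc]

end Pool.Agent.K1H15.OG
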