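import Pool.Agent.K1H15.OG.Dual
import Pool.Agent.K1H15.OG.Main

/-!
# Unipotent elements with Jordan blocks of size three and one
-/

set_option autoImplicit false

open Matrix Filter Topology Module

namespace Pool.Agent.K1H15.OG

open Pool.Agent.K1H13.GO Pool.Agent.K1H12.RP

section jord

variable {E : Type} [Field E] {V : Type} [AddCommGroup V] [Module E V]

theorem exists_span {f : V →ₗ[E] V} (h : finrank E (LinearMap.range f) = 1) :
    ∃ a₁, f a₁ ≠ 0 ∧ ∀ a, ∃ l : E, f a = l • f a₁ := by
  obtain ⟨⟨w, a₁, ha⟩, hw, hw'⟩ := finrank_eq_one_iff'.1 h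
  refine ⟨a₁, fun h0 => hw (Subtype.ext (ha.symm.trans h0)), fun a => ?_⟩
  obtain ⟨l, hl⟩ := hw' ⟨f a, a, rfl⟩
  refine ⟨l, ?_⟩
  rw [ha]
  exact (congrArg Subtype.val hl).symm

theorem pow_unip {u : Module.End E V} (hN : (u - 1) ^ 3 = 0) (m : ℕ) :
    ∃ k : E, u ^ m = 1 + (m : E) • (u - 1) + k • (u - 1) ^ 2 := by
  induction m with
  | zero => exact ⟨0, by simp⟩
  | succ m ih =>
    obtain ⟨k, hk⟩ := ih
    refine ⟨k + m, ?_⟩
    have hu : u = 1 + (u - 1) := by abel
    set N := u - 1 with hNd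
    have h3 : N ^ 2 * N = 0 := by rw [← pow_succ, hN]
    rw [pow_succ, hk]
    nth_rewrite 1 [hu]
    rw [mul_add, mul_one, add_mul, add_mul, one_mul, smul_mul_assoc, smul_mul_assoc, h3, smul_zero,
      add_zero, ← sq, Nat.cast_add, Nat.cast_one, add_smul, add_smul, one_smul]
    abel

theorem pow_unip_sq {u : Module.End E V} (hN : (u - 1) ^ 3 = 0) (m : ℕ) :
    (u ^ m - 1) ^ 2 = ((m : E) ^ 2) • (u - 1) ^ 2 ∧ (u ^ m - 1) ^ 3 = 0 := by
  obtain ⟨k, hk⟩ := pow_unip hN m
  set N := u - 1 with hNd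
  have e1 : u ^ m - 1 = (m : E) • N + k • N ^ 2 := by rw [hk]; abel
  have h3 : N ^ 2 * N = 0 := by rw [← pow_succ, hN]
  have h4 : N * N ^ 2 = 0 := by rw [← pow_succ', hN]
  have h5 : N ^ 2 * N ^ 2 = 0 := by
    have : N ^ 2 * N ^ 2 = (N ^ 2 * N) * N := by rw [mul_assoc, ← sq N]
    rw [this, h3, zero_mul]
  have e2 : (u ^ m - 1) ^ 2 = ((m : E) ^ 2) • N ^ 2 := by
    rw [e1, sq, add_mul, mul_add, mul_add, smul_mul_smul_comm, smul_mul_smul_comm,
      smul_mul_smul_comm, smul_mul_smul_comm, h3, h4, h5, smul_zero, smul_zero, smul_zero,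
      add_zero, add_zero, add_zero, ← sq, ← sq]
  refine ⟨e2, ?_⟩
  rw [pow_succ, e2, e1, mul_add, smul_mul_smul_comm, smul_mul_smul_comm, h3, h5, smul_zero,
    smul_zero, add_zero]

/-- **No alternating forms.** -/
theorem not_alt_jordan {b : LinearMap.BilinForm E V} (hn : ∀ u, (∀ v, b u v = 0) → u = 0)
    (ha : ∀ u v, b u v = - b v u) (h2 : (2 : E) ≠ 0) {f : Module.End E V} {c : E}
    (hf : ∀ u v, b (f u) (f v) = c * b u v) (h3 : (f - 1) ^ 3 = 0)
    (hr : finrank E (LinearMap.range ((f - 1) ^ 2)) = 1) : False := by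
  obtain ⟨a₁, h1, hl⟩ := exists_span hr
  set N := f - 1 with hN
  set w := (N ^ 2) a₁ with hw
  have hNv : ∀ v, N v = f v - v := fun v => by
    rw [hN, LinearMap.sub_apply, Module.End.one_apply]
  have hNw : N w = 0 := by
    rw [hw, ← Module.End.mul_apply, ← pow_succ', h3, LinearMap.zero_apply]
  have hfw : f w = w := by
    rw [hNv] at hNw
    exact sub_eq_zero.1 hNw
  -- the factor is one
  have hc : c = 1 := by
    have k1 : ∀ v, b w (N v) = (c - 1) * b w v := by
      intro v
      have := hf w v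
      rw [hfw] at this
      rw [hNv, map_sub, this]
      ring
    obtain ⟨v, hv⟩ : ∃ v, b w v ≠ 0 := by
      by_contra hcon
      push Not at hcon
      exact h1 (hn w hcon)
    have k2 : b w ((N ^ 3) v) = (c - 1) ^ 3 * b w v := by
      rw [pow_succ', pow_succ', pow_one, Module.End.mul_apply, Module.End.mul_apply, k1, k1, k1]
      ring
    rw [h3, LinearMap.zero_apply, map_zero] at k2
    have k3 := (mul_eq_zero.1 k2.symm).resolve_right hv
    exact sub_eq_zero.1 (pow_eq_zero_iff (by norm_num) |>.1 k3)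
  subst hc
  have hN2 : ∀ v, (N ^ 2) v = f (f v) - f v - (f v - v) := by
    intro v
    rw [sq, Module.End.mul_apply, hNv, hNv, map_sub]
  have haa : ∀ v, b v v = 0 := by
    intro v
    have h4 : (2 : E) * b v v = 0 := by linear_combination ha v v
    exact (mul_eq_zero.1 h4).resolve_left h2
  -- the form `b (f a, N² a')` is alternating
  have key : ∀ a a', b (f a) ((N ^ 2) a') + b (f a') ((N ^ 2) a) = 0 := by
    intro a a'
    rw [hN2, hN2]
    simp only [map_sub, hf]
    have e1 := ha (f a) a'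
    have e2 := ha (f a') a
    have e3 := ha a a'
    linear_combination e1 + e2 - 2 * e3
  have kw : ∀ a, b (f a) w = b a w := by
    intro a
    have := hf a w
    rwa [hfw, one_mul] at this
  obtain ⟨a₂, hb⟩ : ∃ v, b v w ≠ 0 := by
    by_contra hcon
    push Not at hcon
    exact h1 (hn w fun v => by rw [ha, hcon, neg_zero])
  obtain ⟨l, hl2⟩ := hl a₂
  have q1 : b a₁ w = 0 := by
    have := key a₁ a₁
    rw [← hw, kw] at this
    have h4 : (2 : E) * b a₁ w = 0 := by linear_combination this
    exact (mul_eq_zero.1 h4).resolve_left h2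
  have q2 : l = 0 := by
    have := key a₂ a₂
    rw [hl2, map_smul, kw, smul_eq_mul] at this
    have h4 : (2 : E) * (l * b a₂ w) = 0 := by linear_combination this
    exact (mul_eq_zero.1 ((mul_eq_zero.1 h4).resolve_left h2)).resolve_right hb
  have q3 := key a₁ a₂
  rw [hl2, q2, zero_smul, map_zero, zero_add, ← hw, kw] at q3
  exact hb q3

theorem sq_zero {K : Mt E} (h : K ^ 3 = 0) : K ^ 2 = 0 := by
  have h1 : K ^ 2 = K.trace • K - K.det • (1 : Mt E) := by
    rw [sq, Matrix.trace_fin_two, Matrix.det_fin_two]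
    ext i j
    fin_cases i <;> fin_cases j <;> simp [Matrix.mul_apply, Fin.sum_univ_two] <;> ring
  have h2 : K.det = 0 := by
    have := congrArg Matrix.det h
    rw [Matrix.det_pow, Matrix.det_zero] at this
    exact pow_eq_zero_iff (by norm_num) |>.1 this
  rw [h2, zero_smul, sub_zero] at h1
  have h3 : K.trace • (K.trace • K) = 0 := by
    rw [← h1, ← h, pow_succ K 2, h1, Matrix.smul_mul, ← sq, h1]
  rcases smul_eq_zero.1 h3 with h4 | h4
  · rw [h1, h4, zero_smul]
  · rw [h1, h4]

end jord

section infinite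

variable {E : Type} [Field E] [CharZero E] {V : Type} [AddCommGroup V] [Module E V]

/-- Both factors are nontrivial. -/
theorem factors_ne {T : V ≃ₗ[E] Mt E} {f : Module.End E V} (h3 : (f - 1) ^ 3 = 0)
    (h2 : (f - 1) ^ 2 ≠ 0) {A B : SL E}
    (h : ∀ v, T (f v) = (A : Mt E) * T v * ((B⁻¹ : SL E) : Mt E)) : A ≠ 1 ∧ B ≠ 1 := by
  constructor
  · rintro rfl
    set K : Mt E := ((B⁻¹ : SL E) : Mt E) - 1 with hK
    have h4 : ∀ v, T ((f - 1) v) = T v * K := by
      intro v
      rw [LinearMap.sub_apply, Module.End.one_apply, map_sub, h, hK, Matrix.mul_sub, Matrix.mul_one,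
        Matrix.SpecialLinearGroup.coe_one, Matrix.one_mul]
    have h5 : ∀ (n : ℕ) (v : V), T (((f - 1) ^ n) v) = T v * K ^ n := by
      intro n
      induction n with
      | zero => intro v; rw [pow_zero, pow_zero, Module.End.one_apply, Matrix.mul_one]
      | succ n ih =>
        intro v
        rw [pow_succ, Module.End.mul_apply, ih, h4, pow_succ', ← Matrix.mul_assoc]
    have h6 : K ^ 3 = 0 := by
      have := h5 3 (T.symm 1)
      rw [h3, LinearMap.zero_apply, map_zero, LinearEquiv.apply_symm_apply, Matrix.one_mul] at this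
      exact this.symm
    apply h2
    ext1 v
    apply T.injective
    rw [h5, sq_zero h6, Matrix.mul_zero, LinearMap.zero_apply, map_zero]
  · rintro rfl
    set K : Mt E := (A : Mt E) - 1 with hK
    have h4 : ∀ v, T ((f - 1) v) = K * T v := by
      intro v
      rw [LinearMap.sub_apply, Module.End.one_apply, map_sub, h, hK, Matrix.sub_mul, Matrix.one_mul,
        inv_one, Matrix.SpecialLinearGroup.coe_one, Matrix.mul_one]
    have h5 : ∀ (n : ℕ) (v : V), T (((f - 1) ^ n) v) = K ^ n * T v := by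
      intro n
      induction n with
      | zero => intro v; rw [pow_zero, pow_zero, Module.End.one_apply, Matrix.one_mul]
      | succ n ih =>
        intro v
        rw [pow_succ, Module.End.mul_apply, ih, h4, pow_succ, Matrix.mul_assoc]
    have h6 : K ^ 3 = 0 := by
      have := h5 3 (T.symm 1)
      rw [h3, LinearMap.zero_apply, map_zero, LinearEquiv.apply_symm_apply, Matrix.mul_one] at this
      exact this.symm
    apply h2
    ext1 v
    apply T.injective
    rw [h5, sq_zero h6, Matrix.zero_mul, LinearMap.zero_apply, map_zero]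

end infinite

end Pool.Agent.K1H15.OG
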