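import Pool.Agent.K1H15.OG.Avg
import Pool.Agent.K1H12.RP.Top

/-!
# Isometries of the determinant form of 2 x 2 matrices: continuous lifts on open subgroups
-/

set_option autoImplicit false

open Matrix Filter Topology Module

namespace Pool.Agent.K1H15.OG

open Pool.Agent.K1H13.GO Pool.Agent.K1H12.RP

section algebra

variable {E : Type} [Field E]

theorem scalar_of_comm {A B : Mt E} (h : ∀ X : Mt E, A * X = X * B) :
    ∃ s : E, A = s • (1 : Mt E) ∧ B = s • (1 : Mt E) := by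
  have h1 : A = B := by simpa using h 1
  subst h1
  have h2 := h !![0, 1; 0, 0]
  have h3 := h !![0, 0; 1, 0]
  have a1 : A 0 0 = A 1 1 := by
    have := congrFun (congrFun h2 0) 1
    simpa [Matrix.mul_apply, Fin.sum_univ_two] using this
  have a2 : A 1 0 = 0 := by
    have := congrFun (congrFun h2 0) 0
    simpa [Matrix.mul_apply, Fin.sum_univ_two] using this.symm
  have a3 : A 0 1 = 0 := by
    have := congrFun (congrFun h3 0) 0
    simpa [Matrix.mul_apply, Fin.sum_univ_two] using this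
  have h4 : A = A 0 0 • (1 : Mt E) := by
    ext i j
    fin_cases i <;> fin_cases j
    · simp
    · simpa using a3
    · simpa using a2
    · simpa using a1.symm
  exact ⟨A 0 0, h4, h4⟩

theorem cancel {A B Z : Mt E} (h : A * B = 1) {s : E} (hs : B * Z = s • (1 : Mt E)) :
    Z = s • A := by
  have h1 : A * (B * Z) = Z := by rw [← Matrix.mul_assoc, h, Matrix.one_mul]
  rw [← h1, hs, Matrix.mul_smul, Matrix.mul_one]

theorem det_smul_one (s : E) : (s • (1 : Mt E)).det = s ^ 2 := by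
  rw [Matrix.det_smul, Matrix.det_one, mul_one, Fintype.card_fin]

end algebra

section topology

variable {E : Type} [NormedField E] {X : Type} {l : Filter X}

theorem tendsto_mt {F : X → Mt E} {A : Mt E}
    (h : ∀ L : Dual E (Mt E), Tendsto (fun x => L (F x)) l (𝓝 (L A))) : Tendsto F l (𝓝 A) := by
  refine tendsto_pi_nhds.2 fun i => tendsto_pi_nhds.2 fun j => ?_
  exact h (Matrix.entryLinearMap E E i j)

theorem tendsto_adj {F : X → Mt E} {A : Mt E} (h : Tendsto F l (𝓝 A)) :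
    Tendsto (fun x => (F x).adjugate) l (𝓝 A.adjugate) :=
  ((continuous_id.matrix_adjugate).tendsto A).comp h

theorem tendsto_det {F : X → Mt E} {A : Mt E} (h : Tendsto F l (𝓝 A)) :
    Tendsto (fun x => (F x).det) l (𝓝 A.det) :=
  ((continuous_id.matrix_det).tendsto A).comp h

theorem tendsto_mul {F G : X → Mt E} {A B : Mt E} (h : Tendsto F l (𝓝 A))
    (h' : Tendsto G l (𝓝 B)) : Tendsto (fun x => F x * G x) l (𝓝 (A * B)) := by
  have h1 : Continuous fun p : Mt E × Mt E => p.1 * p.2 := continuous_fst.matrix_mul continuous_snd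
  have h2 := h1.tendsto (A, B)
  exact h2.comp (h.prodMk_nhds h')

theorem tendsto_step {s t : X → Fin 4 → Mt E} {s' t' q r : Fin 4 → Mt E} (k : Fin 4)
    (hs : Tendsto (fun x => s x k) l (𝓝 (s' k))) (ht : Tendsto (fun x => t x k) l (𝓝 (t' k)))
    {C : X → Mt E × Mt E} {C' : Mt E × Mt E} (hC : Tendsto C l (𝓝 C')) :
    Tendsto (fun x => step (s x) (t x) q r k (C x)) l (𝓝 (step s' t' q r k C')) := by
  have h1 : Tendsto (fun x => (C x).1) l (𝓝 C'.1) := (continuous_fst.tendsto C').comp hC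
  have h2 : Tendsto (fun x => (C x).2) l (𝓝 C'.2) := (continuous_snd.tendsto C').comp hC
  unfold step
  refine Tendsto.prodMk_nhds ?_ ?_
  · exact (h1.add (tendsto_mul (tendsto_mul hs h2) tendsto_const_nhds)).const_smul _
  · exact (h2.add (tendsto_mul (tendsto_mul ht h1) tendsto_const_nhds)).const_smul _

theorem tendsto_avg {s t : X → Fin 4 → Mt E} {s' t' q r : Fin 4 → Mt E}
    (hs : ∀ k, Tendsto (fun x => s x k) l (𝓝 (s' k)))
    (ht : ∀ k, Tendsto (fun x => t x k) l (𝓝 (t' k))) :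
    Tendsto (fun x => avg (s x) (t x) q r) l (𝓝 (avg s' t' q r)) := by
  unfold avg
  exact tendsto_step 3 (hs 3) (ht 3) (tendsto_step 2 (hs 2) (ht 2) (tendsto_step 1 (hs 1) (ht 1)
    (tendsto_step 0 (hs 0) (ht 0) tendsto_const_nhds)))

theorem step_one (h2 : (2 : E) ≠ 0) {s t : Fin 4 → Mt E} (h : Rel s t) (k : Fin 4) :
    step s t s t k (1, 1) = (1, 1) := by
  unfold step
  have h3 : (2⁻¹ : E) • ((1 : Mt E) + 1) = 1 := by
    rw [← two_smul E (1 : Mt E), smul_smul, inv_mul_cancel₀ h2, one_smul]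
  simp only [Matrix.mul_one, h.st, h.ts, h3]

theorem avg_one (h2 : (2 : E) ≠ 0) {s t : Fin 4 → Mt E} (h : Rel s t) :
    avg s t s t = (1, 1) := by
  unfold avg
  rw [step_one h2 h, step_one h2 h, step_one h2 h, step_one h2 h]

end topology

section lift

variable {E : Type} [NormedField E] [IsAlgClosed E] {P : Type} [Group P]
  [TopologicalSpace P] [IsTopologicalGroup P] [CompactSpace P] [TotallyDisconnectedSpace P]

/-- **Lifts of determinant one.** -/
theorem exists_lift (h2 : (2 : E) ≠ 0) (g : Representation E P (Mt E)) (hg : IsContinuousRep g)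
    {H0 : Subgroup P} (hH0 : IsOpen (H0 : Set P)) (hdet : ∀ x ∈ H0, ∀ X, (g x X).det = X.det) :
    ∃ (H : Subgroup P) (R₁ R₂ : P → Mt E), IsOpen (H : Set P) ∧ H ≤ H0 ∧
      Tendsto R₁ (𝓝 1) (𝓝 1) ∧ Tendsto R₂ (𝓝 1) (𝓝 1) ∧
      (∀ x ∈ H, (R₁ x).det = 1) ∧ (∀ x ∈ H, (R₂ x).det = 1) ∧
      (∀ x ∈ H, ∀ y ∈ H, R₁ (x * y) = R₁ x * R₁ y) ∧
      (∀ x ∈ H, ∀ y ∈ H, R₂ (x * y) = R₂ x * R₂ y) ∧
      ∀ x ∈ H, ∀ X, g x X * R₂ x = R₁ x * X := by
  classical
  obtain ⟨I, hI⟩ : ∃ I : E, I * I = -1 := by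
    obtain ⟨I, hI⟩ := IsAlgClosed.exists_pow_nat_eq (-1 : E) (n := 2) (by norm_num)
    exact ⟨I, by rw [← hI, sq]⟩
  have hrel : Rel (qu I) (fun i => (qu I i).adjugate) := qu_rel hI
  set C : P → Mt E × Mt E := fun x => avg (fun i => g x (qu I i))
    (fun i => (g x (qu I i)).adjugate) (qu I) (fun i => (qu I i).adjugate) with hC
  have t0 : ∀ i, Tendsto (fun x => g x (qu I i)) (𝓝 1) (𝓝 (qu I i)) := by
    intro i
    refine tendsto_mt fun L => ?_
    have h1 := (hg L (qu I i)).tendsto 1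
    rwa [map_one, Module.End.one_apply] at h1
  have tC : Tendsto C (𝓝 1) (𝓝 ((1, 1) : Mt E × Mt E)) := by
    have h1 := tendsto_avg (q := qu I) (r := fun i => (qu I i).adjugate)
      (s := fun x i => g x (qu I i)) (t := fun x i => (g x (qu I i)).adjugate) t0
      (fun i => tendsto_adj (t0 i))
    rwa [avg_one h2 hrel] at h1
  have tC1 : Tendsto (fun x => (C x).1) (𝓝 1) (𝓝 (1 : Mt E)) :=
    (continuous_fst.tendsto ((1, 1) : Mt E × Mt E)).comp tC
  have tC2 : Tendsto (fun x => (C x).2) (𝓝 1) (𝓝 (1 : Mt E)) :=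
    (continuous_snd.tendsto ((1, 1) : Mt E × Mt E)).comp tC
  have hint : ∀ x ∈ H0, ∀ X, g x X * (C x).2 = (C x).1 * X := fun x hx X =>
    avg_intertwines hI h2 (g x) (hdet x hx) X
  have hdd : ∀ x ∈ H0, (C x).2.det = (C x).1.det := by
    intro x hx
    have h1 := congrArg Matrix.det (hint x hx 1)
    rwa [Matrix.mul_one, Matrix.det_mul, hdet x hx, Matrix.det_one, one_mul] at h1
  have tdet : Tendsto (fun x => (C x).1.det) (𝓝 1) (𝓝 1) := by
    have h1 := tendsto_det tC1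
    rwa [Matrix.det_one] at h1
  obtain ⟨c, hc, hc1⟩ := exists_root (d := 2) (by norm_num) tdet
  set R₁ : P → Mt E := fun x => (c x)⁻¹ • (C x).1 with hR₁
  set R₂ : P → Mt E := fun x => (c x)⁻¹ • (C x).2 with hR₂
  have tci : Tendsto (fun x => (c x)⁻¹) (𝓝 1) (𝓝 1) := by
    have := hc1.inv₀ one_ne_zero
    rwa [inv_one] at this
  have tR₁ : Tendsto R₁ (𝓝 1) (𝓝 1) := by
    have := tci.smul tC1
    rwa [one_smul] at this
  have tR₂ : Tendsto R₂ (𝓝 1) (𝓝 1) := by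
    have := tci.smul tC2
    rwa [one_smul] at this
  obtain ⟨ε, hε, hsep⟩ := root_sep E (d := 2) (by norm_num)
  have ev1 : ∀ᶠ x in 𝓝 (1 : P), c x ≠ 0 ∧ x ∈ H0 :=
    (hc1.eventually_ne one_ne_zero).and (hH0.mem_nhds H0.one_mem)
  have e00 : Continuous fun A : Mt E => A 0 0 := by fun_prop
  have ta : Tendsto (fun q : P × P => (R₁ q.1 * R₁ q.2) 0 0) (𝓝 1 ×ˢ 𝓝 1) (𝓝 1) := by
    have h1 := tendsto_mul (tR₁.comp tendsto_fst) (tR₁.comp tendsto_snd) (l := 𝓝 (1 : P) ×ˢ 𝓝 1)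
    have h3 := (e00.tendsto _).comp h1
    rw [Matrix.mul_one, Matrix.one_apply_eq] at h3
    exact h3
  have tb : Tendsto (fun q : P × P => (R₁ (q.1 * q.2)) 0 0) (𝓝 1 ×ˢ 𝓝 1) (𝓝 1) := by
    have h1 := tR₁.comp mul_tendsto
    have h3 := (e00.tendsto _).comp h1
    rw [Matrix.one_apply_eq] at h3
    exact h3
  have ev2 : ∀ᶠ q in 𝓝 (1 : P) ×ˢ 𝓝 (1 : P), (R₁ (q.1 * q.2)) 0 0 ≠ 0 ∧
      ‖(R₁ q.1 * R₁ q.2) 0 0 / (R₁ (q.1 * q.2)) 0 0 - 1‖ < ε := by
    refine (tb.eventually_ne one_ne_zero).and ?_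
    have h3 := ta.div tb one_ne_zero
    rw [div_one] at h3
    have h4 := (Metric.tendsto_nhds.1 h3) ε hε
    filter_upwards [h4] with x hx
    rwa [dist_eq_norm] at hx
  obtain ⟨H1, hH1o, hH1n, hH1⟩ := small ev1
  obtain ⟨H2, hH2o, hH2n, hH2⟩ := small₂ (P := P)
    (p := fun x y => (R₁ (x * y)) 0 0 ≠ 0 ∧
      ‖(R₁ x * R₁ y) 0 0 / (R₁ (x * y)) 0 0 - 1‖ < ε) ev2
  have d1 : ∀ x ∈ H1, (R₁ x).det = 1 := by
    intro x hx
    rw [hR₁]
    change ((c x)⁻¹ • (C x).1).det = 1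
    rw [Matrix.det_smul, Fintype.card_fin, ← hc x, ← mul_pow, inv_mul_cancel₀ (hH1 x hx).1,
      one_pow]
  have d2 : ∀ x ∈ H1, (R₂ x).det = 1 := by
    intro x hx
    rw [hR₂]
    change ((c x)⁻¹ • (C x).2).det = 1
    rw [Matrix.det_smul, Fintype.card_fin, hdd x (hH1 x hx).2, ← hc x, ← mul_pow,
      inv_mul_cancel₀ (hH1 x hx).1, one_pow]
  have key : ∀ x ∈ H1, ∀ X, g x X * R₂ x = R₁ x * X := by
    intro x hx X
    change g x X * ((c x)⁻¹ • (C x).2) = ((c x)⁻¹ • (C x).1) * X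
    rw [Matrix.mul_smul, Matrix.smul_mul, hint x (hH1 x hx).2]
  have main : ∀ x ∈ H1 ⊓ H2, ∀ y ∈ H1 ⊓ H2,
      R₁ (x * y) = R₁ x * R₁ y ∧ R₂ (x * y) = R₂ x * R₂ y := by
    intro x hx y hy
    have hxy := (H1 ⊓ H2).mul_mem hx hy
    obtain ⟨h4, h5⟩ := hH2 x hx.2 y hy.2
    have k1 : ∀ X, g (x * y) X * (R₂ x * R₂ y) = (R₁ x * R₁ y) * X := by
      intro X
      have e1 : g (x * y) X = g x (g y X) := by rw [map_mul, Module.End.mul_apply]
      rw [e1, ← Matrix.mul_assoc, key x hx.1, Matrix.mul_assoc, key y hy.1, Matrix.mul_assoc]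
    have k2 := key (x * y) hxy.1
    have u1 : (R₁ (x * y)).adjugate * R₁ (x * y) = 1 := by
      rw [Matrix.adjugate_mul, d1 _ hxy.1, one_smul]
    have u1' : R₁ (x * y) * (R₁ (x * y)).adjugate = 1 := by
      rw [Matrix.mul_adjugate, d1 _ hxy.1, one_smul]
    have u2 : R₂ (x * y) * (R₂ (x * y)).adjugate = 1 := by
      rw [Matrix.mul_adjugate, d2 _ hxy.1, one_smul]
    have k3 : ∀ X, ((R₁ (x * y)).adjugate * (R₁ x * R₁ y)) * X =
        X * ((R₂ (x * y)).adjugate * (R₂ x * R₂ y)) := by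
      intro X
      have e2 : g (x * y) X = R₁ (x * y) * X * (R₂ (x * y)).adjugate := by
        rw [← k2, Matrix.mul_assoc, u2, Matrix.mul_one]
      rw [Matrix.mul_assoc, ← k1, e2]
      simp only [← Matrix.mul_assoc]
      rw [u1, Matrix.one_mul]
    obtain ⟨s, hs1, hs2⟩ := scalar_of_comm k3
    have f1 : R₁ x * R₁ y = s • R₁ (x * y) := cancel u1' hs1
    have f2 : R₂ x * R₂ y = s • R₂ (x * y) := cancel u2 hs2
    have h6 : s ^ 2 = 1 := by
      have h7 := congrArg Matrix.det f1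
      rw [Matrix.det_smul, Matrix.det_mul, d1 x hx.1, d1 y hy.1, d1 _ hxy.1, mul_one, mul_one,
        Fintype.card_fin] at h7
      exact h7.symm
    have h7 : (R₁ x * R₁ y) 0 0 / (R₁ (x * y)) 0 0 = s := by
      rw [f1, Matrix.smul_apply, smul_eq_mul, mul_div_assoc, div_self h4, mul_one]
    rw [h7] at h5
    have h8 := hsep s h6 h5
    rw [h8, one_smul] at f1 f2
    exact ⟨f1.symm, f2.symm⟩
  refine ⟨H1 ⊓ H2, R₁, R₂, ?_, fun x hx => (hH1 x hx.1).2, tR₁, tR₂, fun x hx => d1 x hx.1,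
    fun x hx => d2 x hx.1, fun x hx y hy => (main x hx y hy).1,
    fun x hx y hy => (main x hx y hy).2, fun x hx => key x hx.1⟩
  rw [Subgroup.coe_inf]
  exact hH1o.inter hH2o

end lift

end Pool.Agent.K1H15.OG
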